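import Mathlib

/-!
# Exponent sums, and `k` elements of a generating set that are independent in homology

PROOF TEXT. `ab : FreeGroup (Fin k) →* Multiplicative (Fin k → ℤ)` sends `of j` to the `j`-th unit vector; `ex w` is
the vector of exponent sums of `w`.  (`ex_mul`, `ex_inv`, `ex_of`: immediate from `ab`.)

`exists_indep`: the real (or rational) vectors `v g = fun j => ((ex g j : ℤ) : ℚ)`, `g ∈ S`, span `Fin k → ℚ`:
the set of `g` with `v g` in the span `V` of `v '' S` is a subgroup containing `S`, so it is everything
(`Subgroup.closure_induction` or `Subgroup.closure_le`), in particular it contains the `of j`, and the unit vectors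
`Pi.single j 1` span `Fin k → ℚ` (`Pi.basisFun`).  A spanning set contains a basis
(`exists_linearIndependent` / `Module.Basis.extend`/ `Basis.ofSpan`); it is indexed by a finite type with `k`
elements (`finrank = k`), so after reindexing there are `s : Fin k → FreeGroup (Fin k)`, `s i ∈ S`, with
`v (s i)` linearly independent.  Then the rational matrix `(ex (s i) j)` has nonzero determinant
(`Matrix.linearIndependent_rows_iff_isUnit`, `Matrix.isUnit_iff_isUnit_det`), and so has the integer matrix
(`Int.cast_det` or `Matrix.det` commutes with the cast: `RingHom.map_det`).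
-/

set_option autoImplicit false

namespace Pool.Agent.Lib.Pee92d8.R

open FreeGroup

/-- abelianisation -/
def ab (k : ℕ) : FreeGroup (Fin k) →* Multiplicative (Fin k → ℤ) :=
  FreeGroup.lift (fun j => Multiplicative.ofAdd (Pi.single j 1))

/-- vector of exponent sums -/
def ex {k : ℕ} (w : FreeGroup (Fin k)) : Fin k → ℤ := Multiplicative.toAdd (ab k w)

theorem ex_mul {k : ℕ} (v w : FreeGroup (Fin k)) : ex (v * w) = ex v + ex w := by
  unfold ex
  rw [MonoidHom.map_mul, toAdd_mul]

theorem ex_inv {k : ℕ} (w : FreeGroup (Fin k)) : ex w⁻¹ = -ex w := by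
  unfold ex
  rw [MonoidHom.map_inv, toAdd_inv]

theorem ex_of {k : ℕ} (j : Fin k) : ex (of j) = Pi.single j 1 := by
  unfold ex ab
  rw [FreeGroup.lift_apply_of, toAdd_ofAdd]

/-- A generating set of `F_k` contains `k` elements that are linearly independent in `H_1`. -/
theorem exists_indep {k : ℕ} {S : Set (FreeGroup (Fin k))} (hS : Subgroup.closure S = ⊤) :
    ∃ s : Fin k → FreeGroup (Fin k), (∀ i, s i ∈ S) ∧
      (Matrix.of fun i j => ex (s i) j).det ≠ 0 := by
  classical
  let v : FreeGroup (Fin k) → (Fin k → ℚ) := fun g j => ((ex g j : ℤ) : ℚ)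
  have v_mul : ∀ x y, v (x * y) = v x + v y := by
    intro x y
    funext j
    simp only [v, ex_mul, Pi.add_apply, Int.cast_add]
  have v_inv : ∀ x, v x⁻¹ = -v x := by
    intro x
    funext j
    simp only [v, ex_inv, Pi.neg_apply, Int.cast_neg]
  have v_one : v 1 = 0 := by
    have h := v_mul 1 1
    rw [mul_one] at h
    exact left_eq_add.1 h
  let w : ↥S → (Fin k → ℚ) := fun g => v g
  have hmem : ∀ g, v g ∈ Submodule.span ℚ (Set.range w) := by
    intro g
    have hg : g ∈ Subgroup.closure S := by
      rw [hS]
      exact Subgroup.mem_top g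
    induction hg using Subgroup.closure_induction with
    | mem x hx => exact Submodule.subset_span ⟨⟨x, hx⟩, rfl⟩
    | one =>
      rw [v_one]
      exact Submodule.zero_mem _
    | mul x y _ _ hx hy =>
      rw [v_mul]
      exact Submodule.add_mem _ hx hy
    | inv x _ hx =>
      rw [v_inv]
      exact Submodule.neg_mem _ hx
  have htop : Submodule.span ℚ (Set.range w) = ⊤ := by
    rw [eq_top_iff, ← (Pi.basisFun ℚ (Fin k)).span_eq, Submodule.span_le]
    rintro _ ⟨j, rfl⟩
    have h1 := hmem (of j)
    have h2 : v (of j) = (Pi.basisFun ℚ (Fin k)) j := by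
      funext i
      simp only [v, ex_of, Pi.basisFun_apply]
      by_cases hij : i = j
      · subst hij
        simp
      · simp [hij]
    rw [← h2]
    exact h1
  obtain ⟨κ, a, ha, hspan, hli⟩ := exists_linearIndependent' ℚ w
  rw [htop] at hspan
  let b := Module.Basis.mk hli (by rw [hspan])
  have hfin : Finite κ := Module.Finite.finite_basis b
  have hcard : Nat.card κ = k := by
    rw [← Module.finrank_eq_nat_card_basis b, Module.finrank_fin_fun]
  let e : κ ≃ Fin k := Finite.equivFinOfCardEq hcard
  refine ⟨fun i => ((a (e.symm i)) : FreeGroup (Fin k)), fun i => (a (e.symm i)).2, ?_⟩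
  have hli2 : LinearIndependent ℚ (fun i : Fin k => v (a (e.symm i) : FreeGroup (Fin k))) :=
    hli.comp _ e.symm.injective
  intro hdet
  let M : Matrix (Fin k) (Fin k) ℚ :=
    Matrix.of fun i j => v (a (e.symm i) : FreeGroup (Fin k)) j
  have hM : IsUnit M := by
    rw [← Matrix.linearIndependent_rows_iff_isUnit]
    exact hli2
  have hM2 : M.det ≠ 0 := ((Matrix.isUnit_iff_isUnit_det M).1 hM).ne_zero
  apply hM2
  have hM3 : M = (Int.castRingHom ℚ).mapMatrix
      (Matrix.of fun i j => ex (a (e.symm i) : FreeGroup (Fin k)) j) := by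
    ext i j
    rfl
  rw [hM3, ← RingHom.map_det, hdet, map_zero]

end Pool.Agent.Lib.Pee92d8.R
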