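import Mathlib

/-!
# Two lemmas on growth rates in `ℝ≥0∞`

PROOF TEXT.
`limsup_upper`: for `N ≥ 1`, `a N ^ (1/N) ≤ (C (N+1)^2)^(1/N) * (b^(N/2))^(1/N)` and
`(b^(N/2))^(1/N) ≤ (b^((N:ℝ)/2))^(1/N) = b^(1/2)` (`(N/2 : ℕ) ≤ (N : ℝ)/2`, `b ≥ 1`, monotonicity of
`ENNReal.rpow`), and `(C (N+1)^2)^(1/N) → 1` (in `ℝ`: for `C ≥ 1` take logarithms, `log (C (N+1)^2) / N → 0`; for
`C = 0` everything is `0`; transfer to `ℝ≥0∞` with `ENNReal.ofReal_rpow_of_nonneg` and
`ENNReal.tendsto_ofReal`; compare `tendsto_root` in `Pee92d8/Growth.lean`).  So the limsup is at most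
`1 * b^(1/2)`.  It is enough to compare with the limit of the dominating sequence
(`Filter.limsup_le_limsup`, `Filter.Tendsto.limsup_eq`).

`limsup_lower`: suppose `limsup < β`.  Choose a real `b` with `1 < b < β` and `limsup < b`
(in `ℝ≥0∞`, `exists_between` and maximum with a number between `1` and `β`).  Eventually
(`Filter.eventually_lt_of_limsup_lt`) `a N ^ (1/N) < b`, hence `a N ≤ b^N` for all `N ≥ N0`, `N0 ≥ 1`.
The finitely many `a N`, `N < N0`, are finite (`hfin`), let `A` be a real bound for their sum.  Then for all `r`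
`β^(2r) ≤ C (r+1) (A + (2r+c0+1) b^(2r+c0))`.  But
`(r+1) (A + (2r+c0+1) b^(2r+c0)) / β^(2r) → 0` since `b < β`, `1 < β` (polynomial times geometric sequence with
ratio `(b/β)^2 < 1`: `tendsto_pow_const_mul_const_pow_of_abs_lt_one`), a contradiction for large `r`.
-/

set_option autoImplicit false

namespace Pool.Agent.Lib.Pee92d8.R

open Filter Topology
open scoped ENNReal

namespace AnAux

theorem tendsto_poly_root (C : ℕ) :
    Tendsto (fun N : ℕ => ((C : ℝ) + 1) ^ ((1 : ℝ) / N) * ((N : ℝ) + 1) ^ ((2 : ℝ) / N))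
      atTop (𝓝 1) := by
  have h1 : Tendsto (fun N : ℕ => ((C : ℝ) + 1) ^ ((1 : ℝ) / N)) atTop (𝓝 1) := by
    have h2 : Tendsto (fun N : ℕ => (1 : ℝ) / N) atTop (𝓝 0) := tendsto_one_div_atTop_nhds_zero_nat
    have h3 := (tendsto_const_nhds (x := (C : ℝ) + 1)).rpow h2 (Or.inl (by positivity))
    rwa [Real.rpow_zero] at h3
  have h4 : Tendsto (fun N : ℕ => ((N : ℝ) + 1) ^ ((2 : ℝ) / N)) atTop (𝓝 1) := by
    have h5 := tendsto_rpow_div_mul_add 2 1 (-1) (by norm_num)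
    have h6 : Tendsto (fun N : ℕ => (N : ℝ) + 1) atTop atTop :=
      tendsto_atTop_add_const_right _ _ tendsto_natCast_atTop_atTop
    refine (h5.comp h6).congr (fun N => ?_)
    simp only [Function.comp]
    congr 2
    ring
  have h7 := h1.mul h4
  rwa [mul_one] at h7

end AnAux

theorem limsup_upper (a : ℕ → ℝ≥0∞) (b C : ℕ) (hb : 1 ≤ b)
    (h : ∀ N, a N ≤ ((C * (N + 1) ^ 2 * b ^ (N / 2) : ℕ) : ℝ≥0∞)) :
    limsup (fun N : ℕ => a N ^ ((1 : ℝ) / N)) atTop ≤ (b : ℝ≥0∞) ^ ((1 : ℝ) / 2) := by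
  have hb1 : (1 : ℝ) ≤ (b : ℝ) := by exact_mod_cast hb
  have hT : Tendsto (fun N : ℕ => ENNReal.ofReal
      ((((C : ℝ) + 1) ^ ((1 : ℝ) / N) * ((N : ℝ) + 1) ^ ((2 : ℝ) / N)) * (b : ℝ) ^ ((1 : ℝ) / 2)))
      atTop (𝓝 ((b : ℝ≥0∞) ^ ((1 : ℝ) / 2))) := by
    have h1 := ENNReal.tendsto_ofReal
      ((AnAux.tendsto_poly_root C).mul_const ((b : ℝ) ^ ((1 : ℝ) / 2)))
    rw [one_mul, ← ENNReal.ofReal_rpow_of_nonneg (by positivity) (by norm_num),
      ENNReal.ofReal_natCast] at h1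
    exact h1
  rw [← hT.limsup_eq]
  refine limsup_le_limsup ?_
  filter_upwards [eventually_ge_atTop 1] with N hN
  have hN0 : (0 : ℝ) < (N : ℝ) := by exact_mod_cast hN
  have hinv : (0 : ℝ) ≤ (1 : ℝ) / N := by positivity
  refine le_trans (ENNReal.rpow_le_rpow (h N) hinv) ?_
  rw [← ENNReal.ofReal_natCast, ENNReal.ofReal_rpow_of_nonneg (by positivity) hinv]
  apply ENNReal.ofReal_le_ofReal
  have hpow : ((b : ℝ) ^ (N / 2)) ≤ (b : ℝ) ^ ((N : ℝ) / 2) := by
    rw [← Real.rpow_natCast]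
    apply Real.rpow_le_rpow_of_exponent_le hb1
    exact_mod_cast Nat.cast_div_le (α := ℝ) (m := N) (n := 2)
  have hle : (((C * (N + 1) ^ 2 * b ^ (N / 2) : ℕ) : ℝ)) ≤
      ((C : ℝ) + 1) * ((N : ℝ) + 1) ^ 2 * (b : ℝ) ^ ((N : ℝ) / 2) := by
    push_cast
    gcongr
    linarith
  refine le_trans (Real.rpow_le_rpow (by positivity) hle hinv) ?_
  have hC : (0 : ℝ) ≤ (C : ℝ) + 1 := by positivity
  have hN1 : (0 : ℝ) ≤ (N : ℝ) + 1 := by positivity
  rw [Real.mul_rpow (by positivity) (by positivity), Real.mul_rpow hC (by positivity),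
    ← Real.rpow_natCast ((N : ℝ) + 1) 2, ← Real.rpow_mul hN1, ← Real.rpow_mul (by positivity)]
  have e1 : ((2 : ℕ) : ℝ) * (1 / (N : ℝ)) = 2 / N := by push_cast; ring
  have e2 : (N : ℝ) / 2 * (1 / N) = 1 / 2 := by field_simp
  rw [e1, e2]

namespace AnAux

theorem tendsto_rhs (C c0 : ℕ) (A B p q : ℝ) (hp : |p| < 1) (hq : |q| < 1) :
    Tendsto (fun r : ℕ => (C : ℝ) * ((r : ℝ) + 1) *
      (A * p ^ r + (2 * (r : ℝ) + (c0 : ℝ) + 1) * (B * q ^ r))) atTop (𝓝 0) := by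
  have P0 : Tendsto (fun r : ℕ => p ^ r) atTop (𝓝 0) := tendsto_pow_atTop_nhds_zero_of_abs_lt_one hp
  have P1 := tendsto_pow_const_mul_const_pow_of_abs_lt_one 1 hp
  have Q0 : Tendsto (fun r : ℕ => q ^ r) atTop (𝓝 0) := tendsto_pow_atTop_nhds_zero_of_abs_lt_one hq
  have Q1 := tendsto_pow_const_mul_const_pow_of_abs_lt_one 1 hq
  have Q2 := tendsto_pow_const_mul_const_pow_of_abs_lt_one 2 hq
  have hS := ((((P1.add P0).const_mul ((C : ℝ) * A)).add (Q2.const_mul ((C : ℝ) * B * 2))).add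
    (Q1.const_mul ((C : ℝ) * B * (c0 + 3)))).add (Q0.const_mul ((C : ℝ) * B * (c0 + 1)))
  simp only [add_zero, mul_zero] at hS
  refine hS.congr (fun r => ?_)
  ring

end AnAux

theorem limsup_lower (a : ℕ → ℝ≥0∞) (hfin : ∀ N, a N ≠ ∞) (β : ℝ) (hβ : 1 < β) (C c0 : ℕ)
    (h : ∀ r : ℕ, ENNReal.ofReal (β ^ (2 * r)) ≤
      ((C * (r + 1) : ℕ) : ℝ≥0∞) * ∑ N ∈ Finset.range (2 * r + c0 + 1), a N) :
    ENNReal.ofReal β ≤ limsup (fun N : ℕ => a N ^ ((1 : ℝ) / N)) atTop := by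
  by_contra hcon
  rw [not_le] at hcon
  obtain ⟨b', hb1, hb2⟩ := exists_between hcon
  have hb'top : b' ≠ ∞ := ne_top_of_lt hb2
  have hβ0 : (0 : ℝ) < β := by linarith
  obtain ⟨b, hb_1, hb_β, hb'b⟩ : ∃ b : ℝ, 1 < b ∧ b < β ∧ b' ≤ ENNReal.ofReal b := by
    refine ⟨max b'.toReal ((1 + β) / 2), ?_, ?_, ?_⟩
    · exact lt_of_lt_of_le (by linarith) (le_max_right _ _)
    · apply max_lt
      · exact (ENNReal.toReal_lt_of_lt_ofReal hb2)
      · linarith
    · refine le_trans (le_of_eq (ENNReal.ofReal_toReal hb'top).symm) ?_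
      exact ENNReal.ofReal_le_ofReal (le_max_left _ _)
  have hb0 : (0 : ℝ) < b := by linarith
  obtain ⟨N0, hN0⟩ := eventually_atTop.1 (eventually_lt_of_limsup_lt hb1)
  have hpt : ∀ N, max N0 1 ≤ N → a N ≤ ENNReal.ofReal (b ^ N) := by
    intro N hN
    have hN1 : N ≠ 0 := by
      have := le_trans (le_max_right N0 1) hN
      omega
    have h1 : a N ^ ((1 : ℝ) / N) ≤ ENNReal.ofReal b :=
      le_trans (hN0 N (le_trans (le_max_left N0 1) hN)).le hb'b
    have h2 : (a N ^ ((N : ℝ)⁻¹)) ^ N = a N := ENNReal.rpow_inv_natCast_pow hN1 (a N)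
    rw [one_div] at h1
    rw [← h2, ENNReal.ofReal_pow hb0.le]
    exact pow_le_pow_left' h1 N
  set N1 := max N0 1 with hN1def
  set A : ℝ := ∑ N ∈ Finset.range N1, (a N).toReal with hA
  have hA0 : 0 ≤ A := Finset.sum_nonneg (fun _ _ => ENNReal.toReal_nonneg)
  have hAe : ∑ N ∈ Finset.range N1, a N = ENNReal.ofReal A := by
    rw [hA, ENNReal.ofReal_sum_of_nonneg (fun _ _ => ENNReal.toReal_nonneg)]
    exact Finset.sum_congr rfl (fun N _ => (ENNReal.ofReal_toReal (hfin N)).symm)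
  have hsum : ∀ M : ℕ, ∑ N ∈ Finset.range M, a N ≤ ENNReal.ofReal (A + M * b ^ M) := by
    intro M
    have h1 : ∀ N ∈ Finset.range M, a N ≤ (if N < N1 then a N else 0) + ENNReal.ofReal (b ^ M) := by
      intro N hN
      by_cases hc : N < N1
      · rw [if_pos hc]
        exact le_self_add
      · rw [if_neg hc, zero_add]
        refine le_trans (hpt N (not_lt.1 hc)) ?_
        apply ENNReal.ofReal_le_ofReal
        exact pow_le_pow_right₀ hb_1.le (Finset.mem_range.1 hN).le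
    refine le_trans (Finset.sum_le_sum h1) ?_
    rw [Finset.sum_add_distrib, Finset.sum_const, Finset.card_range, ← Finset.sum_filter,
      ENNReal.ofReal_add hA0 (by positivity), ← hAe]
    refine add_le_add ?_ ?_
    · apply Finset.sum_le_sum_of_subset
      intro N hN
      rw [Finset.mem_filter] at hN
      exact Finset.mem_range.2 hN.2
    · rw [nsmul_eq_mul, ENNReal.ofReal_mul (by positivity), ENNReal.ofReal_natCast]
  have hreal : ∀ r : ℕ, β ^ (2 * r) ≤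
      ((C : ℝ) * ((r : ℝ) + 1)) * (A + (2 * (r : ℝ) + (c0 : ℝ) + 1) * b ^ (2 * r + c0 + 1)) := by
    intro r
    have h1 := le_trans (h r) (mul_le_mul_right (hsum (2 * r + c0 + 1)) _)
    rw [← ENNReal.ofReal_natCast, ← ENNReal.ofReal_mul (by positivity)] at h1
    have h2 := (ENNReal.ofReal_le_ofReal_iff (by positivity)).1 h1
    push_cast at h2
    exact h2
  have hone : ∀ r : ℕ, (1 : ℝ) ≤ (C : ℝ) * ((r : ℝ) + 1) *
      (A * ((1 / β) ^ 2) ^ r + (2 * (r : ℝ) + (c0 : ℝ) + 1) *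
        (b ^ (c0 + 1) * ((b / β) ^ 2) ^ r)) := by
    intro r
    have hpos : (0 : ℝ) < β ^ (2 * r) := by positivity
    have h1 := (div_le_div_iff_of_pos_right hpos).2 (hreal r)
    rw [div_self hpos.ne'] at h1
    refine le_trans h1 (le_of_eq ?_)
    rw [← pow_mul, ← pow_mul, div_pow, div_pow, one_pow]
    field_simp
    ring
  have hlim := AnAux.tendsto_rhs C c0 A (b ^ (c0 + 1)) ((1 / β) ^ 2) ((b / β) ^ 2)
    (by
      rw [abs_of_nonneg (by positivity)]
      have h1 : 1 / β < 1 := by rw [div_lt_one hβ0]; exact hβ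
      have h0 : 0 ≤ 1 / β := by positivity
      nlinarith)
    (by
      rw [abs_of_nonneg (by positivity)]
      have h1 : b / β < 1 := by rw [div_lt_one hβ0]; exact hb_β
      have h0 : 0 ≤ b / β := by positivity
      nlinarith)
  have hge := ge_of_tendsto' hlim hone
  linarith

end Pool.Agent.Lib.Pee92d8.R
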