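import Pool.Agent.Lib.Pee92d8.FG

/-!
# The centraliser of a generator

PROOF TEXT. Induction on `u.norm`.  If `u = 1` take `n = 0`.  Let `x = of i` and `u ≠ 1`, `u.toWord = a :: L`.
If `a = (i, true)` then `u = x * v`, `v = mk L`, `v.norm = u.norm - 1`, `v` commutes with `x`, so `v = x ^ m` and
`u = x ^ (1 + m)`.  If `a = (i, false)` the same with `x⁻¹`.  Otherwise `a.1 ≠ i`; then
`(x * u).toWord = (i, true) :: u.toWord` (this list is reduced), of length `u.norm + 1`.  Since `x * u = u * x`, also
`(u * x).toWord` has length `u.norm + 1`, so no cancellation takes place in `u * x` and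
`(u * x).toWord = u.toWord ++ [(i, true)]` (`FreeGroup.toWord_mul`, or `mul_decomp u x` of `Pee92d8/FG.lean`).
Comparing the first letters (`u.toWord ≠ []`): `(i, true) = a`, a contradiction.
-/

set_option autoImplicit false

namespace Pool.Agent.Lib.Pee92d8.R

open FreeGroup

namespace CenAux

theorem aux {α : Type} [DecidableEq α] (i : α) : ∀ (N : ℕ) (u : FreeGroup α), u.norm ≤ N →
    of i * u = u * of i → ∃ n : ℤ, u = of i ^ n := by
  intro N
  induction N with
  | zero =>
    intro u hu _
    have h0 : u.norm = 0 := by omega
    exact ⟨0, by rw [norm_eq_zero.1 h0, zpow_zero]⟩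
  | succ N ih =>
    intro u hu hc
    rcases hw : u.toWord with _ | ⟨a, L⟩
    · exact ⟨0, by rw [toWord_eq_nil_iff.1 hw, zpow_zero]⟩
    · have hred : IsReduced (a :: L) := by
        rw [← hw]
        exact isReduced_toWord
      have hL : IsReduced L := red_of_infix hred ⟨[a], [], by simp⟩
      have hu1 : u = mk [a] * mk L := by
        rw [← mk_append, List.singleton_append, ← hw, mk_toWord]
      have hn : (mk L).norm ≤ N := by
        have h1 : (mk L).norm = L.length := by
          unfold FreeGroup.norm
          rw [toWord_mk_of_isReduced hL]
        have h2 : u.norm = L.length + 1 := by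
          unfold FreeGroup.norm
          rw [hw, List.length_cons]
        omega
      by_cases ha : a.1 = i
      · obtain ⟨a1, a2⟩ := a
        simp only at ha
        subst ha
        cases a2
        · have h3 : (mk [(a1, false)] : FreeGroup α) = (of a1)⁻¹ := rfl
          rw [h3] at hu1
          have h4 : of a1 * mk L = mk L * of a1 := by
            rw [hu1] at hc
            have h5 : of a1 * (of a1 * ((of a1)⁻¹ * mk L)) = of a1 * ((of a1)⁻¹ * mk L * of a1) := by
              rw [hc]
            rw [mul_inv_cancel_left, mul_assoc, mul_inv_cancel_left] at h5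
            exact h5
          obtain ⟨m, hm⟩ := ih (mk L) hn h4
          refine ⟨-1 + m, ?_⟩
          rw [hu1, hm, zpow_add, zpow_neg_one]
        · have h3 : (mk [(a1, true)] : FreeGroup α) = of a1 := rfl
          rw [h3] at hu1
          have h4 : of a1 * mk L = mk L * of a1 := by
            rw [hu1, mul_assoc] at hc
            exact mul_left_cancel hc
          obtain ⟨m, hm⟩ := ih (mk L) hn h4
          refine ⟨1 + m, ?_⟩
          rw [hu1, hm, zpow_add, zpow_one]
      · exfalso
        have hr1 : IsReduced ((i, true) :: a :: L) := by
          rw [isReduced_cons_cons]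
          exact ⟨fun h => absurd h.symm ha, hred⟩
        have h6 : (of i * u).toWord = (i, true) :: a :: L := by
          rw [toWord_mul_of_isReduced]
          · rw [toWord_of, hw]
            rfl
          · rw [toWord_of, hw]
            exact hr1
        obtain ⟨A, B, C, h7, h8, h9⟩ := mul_decomp u (of i)
        rw [← hc, h6] at h9
        rw [hw] at h7
        rw [toWord_of] at h8
        have l7 := congrArg List.length h7
        have l8 := congrArg List.length h8
        have l9 := congrArg List.length h9
        simp only [List.length_append, List.length_cons, List.length_nil, invRev_length]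
          at l7 l8 l9
        have hC : C = [] := List.length_eq_zero_iff.1 (by omega)
        rw [hC, List.append_nil] at h7
        rw [← h7, List.cons_append] at h9
        have h10 := (List.cons.inj h9).1
        exact ha (by rw [← h10])

end CenAux

theorem commute_of {α : Type} [DecidableEq α] (i : α) (u : FreeGroup α)
    (h : of i * u = u * of i) : ∃ n : ℤ, u = of i ^ n :=
  CenAux.aux i _ u le_rfl h

/-- norm of a power of a generator -/
theorem norm_of_zpow {α : Type} [DecidableEq α] (i : α) (n : ℤ) :
    (of i ^ n : FreeGroup α).norm = n.natAbs := by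
  rcases n with n | n
  · rw [Int.ofNat_eq_natCast, zpow_natCast, norm_of_pow, Int.natAbs_natCast]
  · rw [zpow_negSucc, norm_inv_eq, norm_of_pow, Int.natAbs_negSucc]

end Pool.Agent.Lib.Pee92d8.R
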