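import Mathlib

/-!
# Number of reduced words (upper and lower bound for balls of a free group)

PROOF TEXT. Let `A = Fin n × Bool`, so `A` has `2n` elements, and let `W m` be the set of the lists over `A`
of length `m` that are reduced (`FreeGroup.IsReduced L`, i.e. no letter is followed by its inverse; it unfolds
to `List.IsChain (fun a b => a.1 = b.1 → a.2 = b.2) L`).  By induction on `m`: `(W (m+1)).encard = 2n (2n-1)^m`
for `m ≥ 0`, because a reduced list of length `m+2` is `a :: L` with `L` in `W (m+1)` and `a` any letter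
different from the inverse of the first letter of `L` (exactly `2n - 1` choices).  Only the two inequalities are
needed: `encard (W m) ≤ 2n (2n-1)^(m-1)` for `m ≥ 1` (`1` for `m = 0`), and `(2n-1)^m ≤ encard (W m)`.

`card_ball_le`: `g ↦ g.toWord` is injective (`FreeGroup.toWord_injective`) and maps `{g | g.norm ≤ r}` into the
union of the `W m`, `m ≤ r` (`FreeGroup.isReduced_toWord`), and
`1 + sum_(m=1..r) 2n (2n-1)^(m-1) ≤ 2n (2n-1)^r` for `n ≥ 2` (induction on `r`: the sum for `r+1` is at most
`2n (2n-1)^r + 2n (2n-1)^r ≤ 2n (2n-1)^(r+1)` since `2n - 1 ≥ 2`).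

`le_card_ball`: `L ↦ FreeGroup.mk L` is injective on `W r` and `(mk L).norm = r` there (`reduce L = L` for reduced
`L`; see `toWord_mk_of_isReduced` in `Pool.Agent.Lib.Pee92d8.FG`, which you may import), so the ball of radius `r`
has at least `encard (W r) ≥ (2n-1)^r` elements.
-/

set_option autoImplicit false

namespace Pool.Agent.Lib.Pee92d8.R

open FreeGroup

namespace CntAux

variable {n : ℕ}

/-- the letters that can be put in front of a reduced list -/
def ext (L : List (Fin n × Bool)) : Finset (Fin n × Bool) :=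
  Finset.univ.filter (fun a => ∀ b ∈ L.head?, a.1 = b.1 → a.2 = b.2)

theorem mem_ext {L : List (Fin n × Bool)} {a : Fin n × Bool} :
    a ∈ ext L ↔ ∀ b ∈ L.head?, a.1 = b.1 → a.2 = b.2 := by
  unfold ext
  rw [Finset.mem_filter]
  exact ⟨fun h => h.2, fun h => ⟨Finset.mem_univ _, h⟩⟩

theorem isReduced_cons {L : List (Fin n × Bool)} {a : Fin n × Bool} :
    IsReduced (a :: L) ↔ IsReduced L ∧ a ∈ ext L := by
  rw [mem_ext]
  cases L with
  | nil => simp
  | cons b L =>
    rw [isReduced_cons_cons]
    constructor
    · rintro ⟨h1, h2⟩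
      refine ⟨h2, fun c hc => ?_⟩
      have e : b = c := by simpa using hc
      subst e
      exact h1
    · rintro ⟨h1, h2⟩
      exact ⟨h2 b (by simp), h1⟩

theorem card_ext_nil : (ext ([] : List (Fin n × Bool))).card = 2 * n := by
  have h : ext ([] : List (Fin n × Bool)) = Finset.univ := by
    ext a
    rw [mem_ext]
    simp
  rw [h, Finset.card_univ, Fintype.card_prod, Fintype.card_fin, Fintype.card_bool, mul_comm]

theorem card_ext_cons (b : Fin n × Bool) (L : List (Fin n × Bool)) :
    (ext (b :: L)).card = 2 * n - 1 := by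
  have h : ext (b :: L) = Finset.univ.erase (b.1, !b.2) := by
    ext a
    rw [mem_ext, Finset.mem_erase]
    constructor
    · intro h
      refine ⟨?_, Finset.mem_univ _⟩
      rintro rfl
      have h1 := h b (by simp) rfl
      simp at h1
    · rintro ⟨h, -⟩ c hc hac
      have e : b = c := by simpa using hc
      subst e
      by_contra h2
      apply h
      apply Prod.ext
      · exact hac
      · change a.2 = !b.2
        revert h2
        cases a.2 <;> cases b.2 <;> simp
  rw [h, Finset.card_erase_of_mem (Finset.mem_univ _), Finset.card_univ, Fintype.card_prod,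
    Fintype.card_fin, Fintype.card_bool, mul_comm]

/-- the reduced lists of length `m` -/
def W (n : ℕ) : ℕ → Finset (List (Fin n × Bool))
  | 0 => {[]}
  | (m + 1) => (W n m).biUnion (fun L => (ext L).image (fun a => a :: L))

theorem mem_W {m : ℕ} : ∀ {L : List (Fin n × Bool)}, L ∈ W n m ↔ L.length = m ∧ IsReduced L := by
  induction m with
  | zero =>
    intro L
    unfold W
    rw [Finset.mem_singleton, List.length_eq_zero_iff]
    constructor
    · rintro rfl
      exact ⟨rfl, IsReduced.nil⟩
    · exact fun h => h.1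
  | succ m ih =>
    intro L
    unfold W
    rw [Finset.mem_biUnion]
    constructor
    · rintro ⟨L', h1, h2⟩
      rw [Finset.mem_image] at h2
      obtain ⟨a, h3, rfl⟩ := h2
      rw [ih] at h1
      exact ⟨by rw [List.length_cons, h1.1], isReduced_cons.2 ⟨h1.2, h3⟩⟩
    · rintro ⟨h1, h2⟩
      cases L with
      | nil => simp at h1
      | cons a L =>
        rw [isReduced_cons] at h2
        refine ⟨L, ih.2 ⟨?_, h2.1⟩, Finset.mem_image.2 ⟨a, h2.2, rfl⟩⟩
        rw [List.length_cons] at h1
        omega

theorem card_W_succ' (n m : ℕ) : (W n (m + 1)).card = ∑ L ∈ W n m, (ext L).card := by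
  conv_lhs => unfold W
  rw [Finset.card_biUnion]
  · refine Finset.sum_congr rfl fun L _ => ?_
    apply Finset.card_image_of_injective
    intro a b hab
    exact (List.cons.inj hab).1
  · intro L _ L' _ hne
    rw [Function.onFun, Finset.disjoint_left]
    intro K h1 h2
    rw [Finset.mem_image] at h1 h2
    obtain ⟨a, _, rfl⟩ := h1
    obtain ⟨b, _, h3⟩ := h2
    exact hne (List.cons.inj h3).2.symm

theorem card_W_succ (n m : ℕ) : (W n (m + 1)).card = 2 * n * (2 * n - 1) ^ m := by
  induction m with
  | zero =>
    rw [card_W_succ', pow_zero, mul_one]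
    change ∑ L ∈ ({[]} : Finset (List (Fin n × Bool))), (ext L).card = 2 * n
    rw [Finset.sum_singleton, card_ext_nil]
  | succ m ih =>
    rw [card_W_succ']
    have h : ∀ L ∈ W n (m + 1), (ext L).card = 2 * n - 1 := by
      intro L hL
      rw [mem_W] at hL
      cases L with
      | nil => simp at hL
      | cons b L => exact card_ext_cons b L
    rw [Finset.sum_congr rfl h, Finset.sum_const, ih, smul_eq_mul, pow_succ, mul_assoc]

theorem sum_card_W (n r : ℕ) (hn : 2 ≤ n) :
    ∑ m ∈ Finset.range (r + 1), (W n m).card ≤ 2 * n * (2 * n - 1) ^ r := by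
  induction r with
  | zero =>
    rw [Finset.sum_range_one, pow_zero, mul_one]
    change ({[]} : Finset (List (Fin n × Bool))).card ≤ 2 * n
    rw [Finset.card_singleton]
    omega
  | succ r ih =>
    rw [Finset.sum_range_succ, card_W_succ]
    have h : 2 ≤ 2 * n - 1 := by omega
    calc ∑ m ∈ Finset.range (r + 1), (W n m).card + 2 * n * (2 * n - 1) ^ r
        ≤ 2 * n * (2 * n - 1) ^ r + 2 * n * (2 * n - 1) ^ r := Nat.add_le_add_right ih _
      _ = 2 * n * (2 * n - 1) ^ r * 2 := by ring
      _ ≤ 2 * n * (2 * n - 1) ^ r * (2 * n - 1) := Nat.mul_le_mul_left _ h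
      _ = 2 * n * (2 * n - 1) ^ (r + 1) := by rw [pow_succ, mul_assoc]

theorem le_card_W (n r : ℕ) : (2 * n - 1) ^ r ≤ (W n r).card := by
  cases r with
  | zero =>
    rw [pow_zero]
    change 1 ≤ ({[]} : Finset (List (Fin n × Bool))).card
    rw [Finset.card_singleton]
  | succ r =>
    rw [card_W_succ, pow_succ, mul_comm]
    exact Nat.mul_le_mul_right _ (Nat.sub_le _ _)

end CntAux

open CntAux

/-- Upper bound for the number of elements of norm at most `r` in a free group of rank `n ≥ 2`. -/
theorem card_ball_le (n r : ℕ) (hn : 2 ≤ n) :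
    {g : FreeGroup (Fin n) | g.norm ≤ r}.encard ≤ ((2 * n * (2 * n - 1) ^ r : ℕ) : ℕ∞) := by
  have h1 : {g : FreeGroup (Fin n) | g.norm ≤ r}.encard ≤
      (((Finset.range (r + 1)).biUnion (W n) : Finset (List (Fin n × Bool))) :
        Set (List (Fin n × Bool))).encard := by
    refine Set.encard_le_encard_of_injOn (f := fun g => g.toWord) ?_ ?_
    · intro g hg
      rw [Finset.mem_coe, Finset.mem_biUnion]
      refine ⟨g.toWord.length, ?_, mem_W.2 ⟨rfl, isReduced_toWord⟩⟩
      rw [Finset.mem_range]
      exact Nat.lt_succ_of_le hg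
    · intro g _ h _ hgh
      exact toWord_injective hgh
  rw [Set.encard_coe_eq_coe_finsetCard] at h1
  refine h1.trans ?_
  exact_mod_cast Finset.card_biUnion_le.trans (sum_card_W n r hn)

/-- Lower bound for the number of elements of norm at most `r` in a free group of rank `n ≥ 1`. -/
theorem le_card_ball (n r : ℕ) (hn : 1 ≤ n) :
    (((2 * n - 1) ^ r : ℕ) : ℕ∞) ≤ {g : FreeGroup (Fin n) | g.norm ≤ r}.encard := by
  have h0 : ∀ L ∈ W n r, (FreeGroup.mk L).toWord = L := by
    intro L hL
    rw [toWord_mk, (mem_W.1 hL).2.reduce_eq]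
  have h1 : ((W n r : Finset (List (Fin n × Bool))) : Set (List (Fin n × Bool))).encard ≤
      {g : FreeGroup (Fin n) | g.norm ≤ r}.encard := by
    refine Set.encard_le_encard_of_injOn (f := fun L => FreeGroup.mk L) ?_ ?_
    · intro L hL
      rw [Finset.mem_coe] at hL
      change (FreeGroup.mk L).toWord.length ≤ r
      rw [h0 L hL]
      exact (mem_W.1 hL).1.le
    · intro L hL L' hL' h
      rw [Finset.mem_coe] at hL hL'
      have h2 := congrArg FreeGroup.toWord h
      change (FreeGroup.mk L).toWord = (FreeGroup.mk L').toWord at h2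
      rwa [h0 L hL, h0 L' hL'] at h2
  rw [Set.encard_coe_eq_coe_finsetCard] at h1
  refine le_trans ?_ h1
  exact_mod_cast le_card_W n r

end Pool.Agent.Lib.Pee92d8.R
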