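import Pool.Agent.Lib.Pee92d8.Gen

/-!
# The generating set with `k + 1` elements
-/

set_option autoImplicit false

namespace Pool.Agent.Lib.Pee92d8.R

open FreeGroup

namespace GenAux

open List

/-- `exists_gens` with the extra information that the generating set is the range of a family
of `k + 1` elements. -/
theorem exists_gens' (k : ℕ) (hk : 2 ≤ k) (lam : ℕ) (hlam : 1 ≤ lam) :
    ∃ S : Set (FreeGroup (Fin k)), (∃ f : Fin (k + 1) → FreeGroup (Fin k), Set.range f = S) ∧
      Subgroup.closure S = ⊤ ∧
      ∀ c : FreeGroup (Fin k), IsCyclicallyReduced c.toWord → IsPrimitive c →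
        ∀ (t : FreeGroup (Fin k)) (W : List (FreeGroup (Fin k))),
          (∀ x ∈ W, x ∈ S ∨ x⁻¹ ∈ S) → W.prod = t * c * t⁻¹ →
          (lam + 1) * c.toWord.length ≤ W.length := by
  have : Nontrivial (Fin k) := Fin.nontrivial_iff_two_le.2 hk
  set N : ℤ := (lam : ℤ) * (2 * k) with hN
  have hw := wt_hyp k lam hlam
  rw [← hN] at hw
  have hN0 : 0 ≤ N := hw.N_nonneg
  obtain ⟨V, L₀, p, b₀, hV, hlen, hwin⟩ := exists_word (α := Fin k) (10 * (N.toNat + 1))
  have hM : (b₀ : ℤ) * (2 * N + 1) + 4 * N + 1 ≤ ((V.length : ℤ) - b₀ - 2) * (lam + 1) := by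
    have h1 : (b₀ : ℤ) * (10 * (N + 1)) + 10 * (N + 1) ≤ V.length := by
      have : ((N.toNat : ℕ) : ℤ) = N := Int.toNat_of_nonneg hN0
      rw [← this]
      exact_mod_cast hlen
    have h2 : (0 : ℤ) ≤ b₀ := by positivity
    have h3 : (0 : ℤ) ≤ b₀ * N := mul_nonneg h2 hN0
    have h4 : (0 : ℤ) ≤ (V.length : ℤ) - b₀ - 2 := by nlinarith
    have h5 : (0 : ℤ) ≤ (lam : ℤ) := by positivity
    have h6 : ((V.length : ℤ) - b₀ - 2) ≤ ((V.length : ℤ) - b₀ - 2) * (lam + 1) := by nlinarith
    nlinarith
  set w := wt k lam with hwdef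
  have hzinv : ∀ i b, (zlet V w (i, b))⁻¹ = zlet V w (i, !b) := by
    intro i b
    unfold zlet
    simp only [Bool.not_not]
    have : (mk [(i, b)])⁻¹ = (mk [(i, !b)] : FreeGroup (Fin k)) := by rw [inv_mk]; rfl
    rw [← this]
    group
  have htop : Subgroup.closure ({mk V} ∪ Set.range (fun i => zlet V w (i, true))) =
      (⊤ : Subgroup (FreeGroup (Fin k))) := by
    rw [eq_top_iff, ← FreeGroup.closure_range_of, Subgroup.closure_le]
    rintro _ ⟨i, rfl⟩
    have hv : mk V ∈ Subgroup.closure ({mk V} ∪ Set.range (fun i => zlet V w (i, true))) :=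
      Subgroup.subset_closure (Or.inl rfl)
    have hz : zlet V w (i, true) ∈
        Subgroup.closure ({mk V} ∪ Set.range (fun i => zlet V w (i, true))) :=
      Subgroup.subset_closure (Or.inr ⟨i, rfl⟩)
    have : (of i : FreeGroup (Fin k)) = (mk V) ^ (-(w (i, true))) * zlet V w (i, true) *
        (mk V) ^ (w (i, false)) := by
      unfold zlet
      simp only [Bool.not_true]
      have : (of i : FreeGroup (Fin k)) = mk [(i, true)] := rfl
      rw [this]
      group
    rw [this]
    exact mul_mem (mul_mem (zpow_mem hv _) hz) (zpow_mem hv _)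
  refine ⟨{mk V} ∪ Set.range (fun i => zlet V w (i, true)), ?_, htop, ?_⟩
  · refine ⟨Fin.cons (mk V) (fun i : Fin k => zlet V w (i, true)), ?_⟩
    rw [Fin.range_cons, Set.insert_eq]
  · intro c hc hp t W hW hprod
    have hcl : ∀ x : FreeGroup (Fin k), x ∈ ({mk V} ∪ Set.range (fun i => zlet V w (i, true)) :
        Set (FreeGroup (Fin k))) ∨ x⁻¹ ∈ ({mk V} ∪ Set.range (fun i => zlet V w (i, true)) :
        Set (FreeGroup (Fin k))) → x = mk V ∨ x = (mk V)⁻¹ ∨ ∃ y, x = zlet V w y := by
      rintro x (h | h)
      · rcases h with h | ⟨i, h⟩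
        · exact Or.inl h
        · exact Or.inr (Or.inr ⟨_, h.symm⟩)
      · rcases h with h | ⟨i, h⟩
        · right; left
          rw [← inv_inv x, show x⁻¹ = mk V from h]
        · right; right
          refine ⟨(i, false), ?_⟩
          rw [← inv_inv x, ← h, hzinv]
          rfl
    -- words for the conjugator
    obtain ⟨Wt, hWt1, hWt2⟩ := exists_list_of_closure htop t
    obtain ⟨Wt', hWt'1, hWt'2⟩ := exists_list_of_closure htop t⁻¹
    have key : ∀ n : ℕ, 1 ≤ n → ((n * c.toWord.length : ℤ) - 1) * (lam + 1) + 1 - 2 * N ≤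
        Wt'.length + n * W.length + Wt.length := by
      intro n hn
      have h1 := length_lower hV hw hM (noWin_pow hwin hc hp n) (hp.pow_ne_one (by omega)) (Wt' ++ ((List.replicate n W).flatten ++ Wt)) (by
          intro x hx
          apply hcl
          rw [List.mem_append, List.mem_append] at hx
          rcases hx with hx | hx | hx
          · exact hWt'1 x hx
          · rw [List.mem_flatten] at hx
            obtain ⟨l, hl1, hl2⟩ := hx
            rw [List.mem_replicate] at hl1
            exact hW x (hl1.2 ▸ hl2)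
          · exact hWt1 x hx) (by
          rw [List.prod_append, List.prod_append, hWt2, hWt'2, prod_flatten_replicate, hprod,
            conj_pow]
          group)
      rw [toWord_pow_of_cyc hc] at h1
      simp only [List.length_append, List.length_flatten, List.map_replicate,
        List.sum_replicate, smul_eq_mul] at h1
      push_cast at h1 ⊢
      linarith
    by_contra hcon
    push Not at hcon
    set a : ℤ := Wt'.length + Wt.length + 2 * N + lam with ha
    have h2 := key (a.toNat + 1) (by omega)
    have h3 : ((a.toNat : ℕ) : ℤ) = a := Int.toNat_of_nonneg (by positivity)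
    have hcon' : (W.length : ℤ) + 1 ≤ (lam + 1) * c.toWord.length := by exact_mod_cast hcon
    push_cast at h2
    rw [h3] at h2
    have ha0 : 0 ≤ a := by positivity
    nlinarith

end GenAux

/-- A generating family of `k + 1` elements for which every word for a conjugate of a cyclically reduced primitive
element `c` has at least `2 |c|` letters. -/
theorem exists_gens_range (k : ℕ) (hk : 2 ≤ k) :
    ∃ f : Fin (k + 1) → FreeGroup (Fin k), Subgroup.closure (Set.range f) = ⊤ ∧
      ∀ c : FreeGroup (Fin k), IsCyclicallyReduced c.toWord → IsPrimitive c →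
        ∀ (t : FreeGroup (Fin k)) (W : List (FreeGroup (Fin k))),
          (∀ x ∈ W, x ∈ Set.range f ∨ x⁻¹ ∈ Set.range f) → W.prod = t * c * t⁻¹ →
          2 * c.toWord.length ≤ W.length := by
  obtain ⟨S, ⟨f, rfl⟩, h1, h2⟩ := GenAux.exists_gens' k hk 1 le_rfl
  exact ⟨f, h1, h2⟩

end Pool.Agent.Lib.Pee92d8.R
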