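import Mathlib

/-!
# Free groups are residually `p` for almost all primes `p` (for one given element)

PROOF TEXT.
(1) `exists_syl`: every `w : FreeGroup α` is `(l.map fun q => of q.1 ^ q.2).prod` for a list `l : List (α × ℤ)` with
all exponents `q.2 ≠ 0` and consecutive first entries different (`List.IsChain (fun a b => a.1 ≠ b.1) l`;
if `IsChain` is inconvenient use your own inductive predicate, only the final statement counts).  The elements of this
form contain `1` (empty list) and are closed under left multiplication by `of i` and `(of i)⁻¹`: if `l = (i, e) :: l'`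
replace `e` by `e ± 1`, and drop the pair if the new exponent is `0`; otherwise put `(i, ±1)` in front.  So they are
everything (`FreeGroup.induction_on` or induction on `w.toWord`).

(2) REPRESENTATION. Let `l = [(i_0,e_0), ..., (i_{m-1},e_{m-1})]`, `m ≥ 1`, be such a list and `p` a prime that
divides no `e_j`.  Let `V = ℕ → ZMod p` restricted to `Fin (m+1) → ZMod p`.  For `i : α` and `e : ℤ` let
`T i e : V → V`, `(T i e v) j = v j + (if i_j = i then e * v (j+1) else 0)` for `j < m`, `(T i e v) m = v m`.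
Since consecutive `i_j` are different, `T i e ∘ T i e' = T i (e + e')` (if `i_j = i` then `(T i e' v) (j+1) = v (j+1)`
because `i_{j+1} ≠ i` or `j+1 = m`), `T i 0 = id`.  So `i ↦ T i 1` defines a homomorphism `f` from the free group to
`Equiv.Perm V` (or to the linear automorphisms of `V`) with `f (of i ^ e) = T i e`.

(3) `f w ≠ 1`: apply `f w = T i_0 e_0 ∘ ... ∘ T i_{m-1} e_{m-1}` to the last unit vector `u_m`.  Claim: for `r ≤ m`
the vector `v_r = T i_r e_r (... (T i_{m-1} e_{m-1} u_m))` has `v_r j = 0` for `j < r` and `v_r r = e_r ... e_{m-1}`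
(`u_m = v_m`; in the step only the entry at index `r` among the indices `≤ r` can become nonzero, it is
`0 + e_r * v_{r+1} (r+1)`, since at `j < r` the entry `v_{r+1} (j+1)` with `j + 1 ≤ r` is `0`).  So
`v_0 0 = ∏ e_j ≠ 0` in `ZMod p`, but `u_m 0 = 0` as `m ≥ 1`; hence `f w ≠ 1`.

(4) THE `p`-GROUP. Let `V_r = {v | v j = 0 for all j ≥ r}` (`V_0 = 0`, `V_{m+1} = V`).  Let `U` be the set of the
additive automorphisms `g` of `V` such that `g v - v` and `g⁻¹ v - v` are in `V_r` for all `r ≤ m` and `v ∈ V_{r+1}`.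
It is a subgroup of the (finite) group of additive (or `ZMod p`-linear) automorphisms of `V`
(`gh v - v = g (h v - v) + (g v - v)` and `g` maps `V_r` to `V_r`), and contains all `T i e`.  It is a `p`-group: in
the ring of additive endomorphisms of `V` (characteristic `p`: `p • x = 0`), `g = 1 + n` with `n^(m+1) = 0`, so
`g ^ (p^t) = 1 + n ^ (p^t) = 1` for `p^t ≥ m+1` (`add_pow_char_pow_of_commute` / `add_pow_expChar_pow_of_commute`;
in the ring `Module.End (ZMod p) V` or with matrices).
Alternative for (2)-(4): upper unitriangular `(m+1) × (m+1)` matrices over `ZMod p`, with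
`T i e = 1 + e • ∑_{j : i_j = i} Matrix.single j (j+1) 1`.
Take `P = U` (a `Type`, since `V : Type`), `N = ∏ |e_j|` (for the empty list `w = 1`, excluded).
-/

set_option autoImplicit false
namespace Pool.Agent.Lib.Pee92d8.R

open FreeGroup

namespace UniAux

/-- syllable form -/
def Syl {α : Type} (w : FreeGroup α) : Prop :=
  ∃ l : List (α × ℤ), (∀ q ∈ l, q.2 ≠ 0) ∧ List.IsChain (fun a b : α × ℤ => a.1 ≠ b.1) l ∧
    w = (l.map fun q => (FreeGroup.of q.1) ^ q.2).prod

theorem syl_mul {α : Type} (i : α) (e : ℤ) (w : FreeGroup α) (hw : Syl w) :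
    Syl ((FreeGroup.of i) ^ e * w) := by
  classical
  obtain ⟨l, h0, hc, rfl⟩ := hw
  by_cases he : e = 0
  · subst he
    exact ⟨l, h0, hc, by simp⟩
  cases l with
  | nil => exact ⟨[(i, e)], by simpa using he, by simp, by simp⟩
  | cons q l' =>
    obtain ⟨j, e'⟩ := q
    by_cases hij : i = j
    · subst hij
      by_cases hs : e + e' = 0
      · refine ⟨l', fun q hq => h0 q (List.mem_cons_of_mem _ hq), hc.tail, ?_⟩
        simp only [List.map_cons, List.prod_cons]
        rw [← mul_assoc, ← zpow_add, hs, zpow_zero, one_mul]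
      · refine ⟨(i, e + e') :: l', ?_, ?_, ?_⟩
        · intro q hq
          rcases List.mem_cons.1 hq with h | h
          · subst h
            exact hs
          · exact h0 q (List.mem_cons_of_mem _ h)
        · cases l' with
          | nil => simp
          | cons q2 l2 =>
            rw [List.isChain_cons_cons] at hc ⊢
            exact ⟨hc.1, hc.2⟩
        · simp only [List.map_cons, List.prod_cons]
          rw [← mul_assoc, ← zpow_add]
    · refine ⟨(i, e) :: (j, e') :: l', ?_, ?_, ?_⟩
      · intro q hq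
        rcases List.mem_cons.1 hq with h | h
        · subst h
          exact he
        · exact h0 q h
      · rw [List.isChain_cons_cons]
        exact ⟨hij, hc⟩
      · simp only [List.map_cons, List.prod_cons]

theorem exists_syl {α : Type} (w : FreeGroup α) : Syl w := by
  have key : ∀ y : FreeGroup α, Syl y → Syl (w * y) := by
    refine FreeGroup.induction_on (C := fun w => ∀ y : FreeGroup α, Syl y → Syl (w * y)) w ?_ ?_ ?_ ?_
    · intro y hy
      rwa [one_mul]
    · intro x y hy
      have h := syl_mul x 1 y hy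
      rw [zpow_one] at h
      exact h
    · intro x _ y hy
      have h := syl_mul x (-1) y hy
      rw [zpow_neg_one] at h
      exact h
    · intro a b ha hb y hy
      rw [mul_assoc]
      exact ha _ (hb _ hy)
  have h := key 1 ⟨[], by simp, by simp, by simp⟩
  rwa [mul_one] at h

/-- strictly upper triangular -/
def SU {n p : ℕ} (A : Matrix (Fin n) (Fin n) (ZMod p)) : Prop :=
  ∀ a b : Fin n, (b : ℕ) ≤ (a : ℕ) → A a b = 0

theorem SU.mul {n p : ℕ} {A B : Matrix (Fin n) (Fin n) (ZMod p)} (hA : SU A) (hB : SU B) :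
    SU (A * B) := by
  intro a c hca
  rw [Matrix.mul_apply]
  refine Finset.sum_eq_zero fun b _ => ?_
  by_cases h : (b : ℕ) ≤ a
  · rw [hA a b h, zero_mul]
  · rw [hB b c (by omega), mul_zero]

theorem SU.add {n p : ℕ} {A B : Matrix (Fin n) (Fin n) (ZMod p)} (hA : SU A) (hB : SU B) :
    SU (A + B) := by
  intro a c hca
  rw [Matrix.add_apply, hA a c hca, hB a c hca, add_zero]

theorem SU.pow_apply {n p : ℕ} {A : Matrix (Fin n) (Fin n) (ZMod p)} (hA : SU A) (k : ℕ) :
    ∀ a b : Fin n, (b : ℕ) < (a : ℕ) + k → (A ^ k) a b = 0 := by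
  induction k with
  | zero =>
    intro a b hab
    rw [pow_zero, Matrix.one_apply_ne]
    intro h
    subst h
    omega
  | succ k ih =>
    intro a c hac
    rw [pow_succ, Matrix.mul_apply]
    refine Finset.sum_eq_zero fun b _ => ?_
    by_cases h : (b : ℕ) < a + k
    · rw [ih a b h, zero_mul]
    · rw [hA b c (by omega), mul_zero]

theorem SU.pow_eq_zero {n p : ℕ} {A : Matrix (Fin n) (Fin n) (ZMod p)} (hA : SU A) (k : ℕ)
    (hk : n ≤ k) : A ^ k = 0 := by
  ext a b
  rw [hA.pow_apply k a b (by have := b.2; omega)]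
  rfl

/-- the unitriangular subgroup -/
def U (n p : ℕ) : Subgroup (Matrix (Fin n) (Fin n) (ZMod p))ˣ where
  carrier := {g | SU ((g : Matrix (Fin n) (Fin n) (ZMod p)) - 1) ∧
    SU (((g⁻¹ : (Matrix (Fin n) (Fin n) (ZMod p))ˣ) : Matrix (Fin n) (Fin n) (ZMod p)) - 1)}
  mul_mem' := by
    rintro g h ⟨hg, hg'⟩ ⟨hh, hh'⟩
    refine ⟨?_, ?_⟩
    · have e : ((g * h : (Matrix (Fin n) (Fin n) (ZMod p))ˣ) : Matrix (Fin n) (Fin n) (ZMod p)) - 1
        = ((g : Matrix (Fin n) (Fin n) (ZMod p)) - 1) * ((h : Matrix (Fin n) (Fin n) (ZMod p)) - 1)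
          + ((g : Matrix (Fin n) (Fin n) (ZMod p)) - 1) + ((h : Matrix (Fin n) (Fin n) (ZMod p)) - 1) := by
        rw [Units.val_mul]
        noncomm_ring
      rw [e]
      exact ((hg.mul hh).add hg).add hh
    · have e : (((g * h)⁻¹ : (Matrix (Fin n) (Fin n) (ZMod p))ˣ) : Matrix (Fin n) (Fin n) (ZMod p)) - 1
        = (((h⁻¹ : (Matrix (Fin n) (Fin n) (ZMod p))ˣ) : Matrix (Fin n) (Fin n) (ZMod p)) - 1) *
            (((g⁻¹ : (Matrix (Fin n) (Fin n) (ZMod p))ˣ) : Matrix (Fin n) (Fin n) (ZMod p)) - 1)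
          + (((h⁻¹ : (Matrix (Fin n) (Fin n) (ZMod p))ˣ) : Matrix (Fin n) (Fin n) (ZMod p)) - 1)
          + (((g⁻¹ : (Matrix (Fin n) (Fin n) (ZMod p))ˣ) : Matrix (Fin n) (Fin n) (ZMod p)) - 1) := by
        rw [mul_inv_rev, Units.val_mul]
        noncomm_ring
      rw [e]
      exact ((hh'.mul hg').add hh').add hg'
  one_mem' := by
    refine ⟨?_, ?_⟩ <;> intro a b _ <;> simp
  inv_mem' := by
    rintro g ⟨hg, hg'⟩
    exact ⟨hg', by rwa [inv_inv]⟩

theorem U_isPGroup (n p : ℕ) (hp : p.Prime) (hn : 0 < n) : IsPGroup p (U n p) := by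
  have : Fact p.Prime := ⟨hp⟩
  have : Nonempty (Fin n) := ⟨⟨0, hn⟩⟩
  have : CharP (Matrix (Fin n) (Fin n) (ZMod p)) p := inferInstance
  intro x
  have hx : SU ((x.1 : Matrix (Fin n) (Fin n) (ZMod p)) - 1) := x.2.1
  refine ⟨n, ?_⟩
  apply Subtype.ext
  apply Units.ext
  rw [Subgroup.coe_pow, Units.val_pow_eq_pow_val, Subgroup.coe_one, Units.val_one]
  have e : (x.1 : Matrix (Fin n) (Fin n) (ZMod p)) =
      ((x.1 : Matrix (Fin n) (Fin n) (ZMod p)) - 1) + 1 := by
    rw [sub_add_cancel]
  rw [e, add_pow_char_pow_of_commute _ _ (Commute.one_right _), one_pow,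
    SU.pow_eq_zero hx (p ^ n) (Nat.lt_pow_self hp.one_lt).le, zero_add]

/-- the nilpotent matrices -/
def M {α : Type} [DecidableEq α] (n p : ℕ) (L : List (α × ℤ)) (i : α) :
    Matrix (Fin n) (Fin n) (ZMod p) :=
  fun a b => if (b : ℕ) = (a : ℕ) + 1 ∧ (L.map Prod.fst)[(a : ℕ)]? = some i then 1 else 0

theorem M_SU {α : Type} [DecidableEq α] (n p : ℕ) (L : List (α × ℤ)) (i : α) :
    SU (M n p L i) := by
  intro a b hab
  unfold M
  rw [if_neg]
  omega

theorem M_sq {α : Type} [DecidableEq α] (n p : ℕ) (L : List (α × ℤ))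
    (hc : List.IsChain (fun a b : α × ℤ => a.1 ≠ b.1) L) (i : α) :
    M n p L i * M n p L i = 0 := by
  ext a c
  rw [Matrix.mul_apply]
  refine Finset.sum_eq_zero fun b _ => ?_
  unfold M
  by_cases h1 : (b : ℕ) = (a : ℕ) + 1 ∧ (L.map Prod.fst)[(a : ℕ)]? = some i
  · by_cases h2 : (c : ℕ) = (b : ℕ) + 1 ∧ (L.map Prod.fst)[(b : ℕ)]? = some i
    · exfalso
      obtain ⟨h1, h1'⟩ := h1
      obtain ⟨h2, h2'⟩ := h2
      rw [h1] at h2'
      rw [List.getElem?_map] at h1' h2'
      rw [List.isChain_iff_getElem] at hc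
      have hlt : (a : ℕ) + 1 < L.length := by
        by_contra hlt
        rw [List.getElem?_eq_none (by omega)] at h2'
        simp at h2'
      have := hc a hlt
      rw [List.getElem?_eq_getElem hlt] at h2'
      rw [List.getElem?_eq_getElem (by omega)] at h1'
      simp only [Option.map_some, Option.some.injEq] at h1' h2'
      exact this (h1'.trans h2'.symm)
    · rw [if_neg h2, mul_zero]
  · rw [if_neg h1, zero_mul]

/-- the unit `1 + M` -/
def T {α : Type} [DecidableEq α] (n p : ℕ) (L : List (α × ℤ))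
    (hc : List.IsChain (fun a b : α × ℤ => a.1 ≠ b.1) L) (i : α) :
    (Matrix (Fin n) (Fin n) (ZMod p))ˣ where
  val := 1 + M n p L i
  inv := 1 - M n p L i
  val_inv := by
    have := M_sq n p L hc i
    noncomm_ring
    rw [this]
    simp
  inv_val := by
    have := M_sq n p L hc i
    noncomm_ring
    rw [this]
    simp

theorem T_mem {α : Type} [DecidableEq α] (n p : ℕ) (L : List (α × ℤ))
    (hc : List.IsChain (fun a b : α × ℤ => a.1 ≠ b.1) L) (i : α) :
    T n p L hc i ∈ U n p := by
  refine ⟨?_, ?_⟩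
  · have e : ((T n p L hc i : (Matrix (Fin n) (Fin n) (ZMod p))ˣ) :
        Matrix (Fin n) (Fin n) (ZMod p)) - 1 = M n p L i := by
      change 1 + M n p L i - 1 = _
      abel
    rw [e]
    exact M_SU n p L i
  · have e : (((T n p L hc i)⁻¹ : (Matrix (Fin n) (Fin n) (ZMod p))ˣ) :
        Matrix (Fin n) (Fin n) (ZMod p)) - 1 = - M n p L i := by
      change 1 - M n p L i - 1 = _
      abel
    rw [e]
    intro a b hab
    rw [Matrix.neg_apply, M_SU n p L i a b hab, neg_zero]

theorem T_zpow {α : Type} [DecidableEq α] (n p : ℕ) (L : List (α × ℤ))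
    (hc : List.IsChain (fun a b : α × ℤ => a.1 ≠ b.1) L) (i : α) (e : ℤ) :
    (((T n p L hc i) ^ e : (Matrix (Fin n) (Fin n) (ZMod p))ˣ) : Matrix (Fin n) (Fin n) (ZMod p))
      = 1 + (e : ZMod p) • M n p L i := by
  have hsq := M_sq n p L hc i
  induction e with
  | zero => simp
  | succ k ih =>
    rw [zpow_add_one, Units.val_mul, ih]
    change _ * (1 + M n p L i) = _
    rw [mul_add, mul_one, add_mul, one_mul, smul_mul_assoc, hsq, smul_zero, add_zero]
    push_cast
    rw [add_smul, one_smul]
    abel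
  | pred k ih =>
    rw [zpow_sub_one, Units.val_mul, ih]
    change _ * (1 - M n p L i) = _
    rw [mul_sub, mul_one, add_mul, one_mul, smul_mul_assoc, hsq, smul_zero, add_zero]
    push_cast
    rw [sub_smul, one_smul]
    abel

/-- the homomorphism -/
def f {α : Type} [DecidableEq α] (n p : ℕ) (L : List (α × ℤ))
    (hc : List.IsChain (fun a b : α × ℤ => a.1 ≠ b.1) L) : FreeGroup α →* U n p :=
  FreeGroup.lift fun i => ⟨T n p L hc i, T_mem n p L hc i⟩

theorem f_prod {α : Type} [DecidableEq α] (n p : ℕ) (L : List (α × ℤ))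
    (hc : List.IsChain (fun a b : α × ℤ => a.1 ≠ b.1) L) (l : List (α × ℤ)) :
    ((f n p L hc ((l.map fun q => (FreeGroup.of q.1) ^ q.2).prod) :
      (Matrix (Fin n) (Fin n) (ZMod p))ˣ) : Matrix (Fin n) (Fin n) (ZMod p))
      = (l.map fun q => (1 + (q.2 : ZMod p) • M n p L q.1)).prod := by
  induction l with
  | nil => simp
  | cons q l ih =>
    rw [List.map_cons, List.prod_cons, List.map_cons, List.prod_cons, _root_.map_mul, _root_.map_zpow,
      Subgroup.coe_mul, Units.val_mul, ih]
    congr 1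
    rw [Subgroup.coe_zpow]
    unfold f
    rw [FreeGroup.lift_apply_of]
    exact T_zpow n p L hc q.1 q.2

theorem entry {α : Type} [DecidableEq α] (p : ℕ) (L : List (α × ℤ)) (k : ℕ) :
    ∀ r : ℕ, (hr : r + k = L.length) →
      (∀ a : Fin (L.length + 1), (a : ℕ) < r →
        ((L.drop r).map fun q => (1 + (q.2 : ZMod p) • M (L.length + 1) p L q.1)).prod a
          (Fin.last L.length) = 0) ∧
      (((L.drop r).map fun q => (1 + (q.2 : ZMod p) • M (L.length + 1) p L q.1)).prod
        ⟨r, by omega⟩ (Fin.last L.length) = ((((L.drop r).map Prod.snd).prod : ℤ) : ZMod p)) := by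
  induction k with
  | zero =>
    intro r hr
    have hr' : r = L.length := by omega
    subst hr'
    rw [List.drop_length]
    refine ⟨?_, ?_⟩
    · intro a ha
      rw [List.map_nil, List.prod_nil, Matrix.one_apply_ne]
      intro h
      subst h
      simp at ha
    · simp only [List.map_nil, List.prod_nil, Int.cast_one]
      exact Matrix.one_apply_eq _
  | succ k ih =>
    intro r hr
    have hlt : r < L.length := by omega
    obtain ⟨ih1, ih2⟩ := ih (r + 1) (by omega)
    rw [List.drop_eq_getElem_cons hlt]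
    simp only [List.map_cons, List.prod_cons]
    set P := ((L.drop (r + 1)).map fun q => (1 + (q.2 : ZMod p) • M (L.length + 1) p L q.1)).prod
      with hP
    refine ⟨?_, ?_⟩
    · intro a ha
      rw [add_mul, one_mul, Matrix.add_apply, ih1 a (by omega), zero_add, smul_mul_assoc,
        Matrix.smul_apply, Matrix.mul_apply, Finset.sum_eq_zero, smul_zero]
      intro b _
      unfold M
      by_cases h : (b : ℕ) = (a : ℕ) + 1
      · rw [ih1 b (by omega), mul_zero]
      · rw [if_neg (fun h' => h h'.1), zero_mul]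
    · rw [add_mul, one_mul, Matrix.add_apply, ih1 ⟨r, by omega⟩ (by simp), zero_add, smul_mul_assoc,
        Matrix.smul_apply, Matrix.mul_apply,
        Finset.sum_eq_single (⟨r + 1, by omega⟩ : Fin (L.length + 1)), ih2]
      · unfold M
        rw [if_pos]
        · push_cast
          rw [one_mul, smul_eq_mul]
        · refine ⟨rfl, ?_⟩
          rw [List.getElem?_map, List.getElem?_eq_getElem hlt]
          rfl
      · intro b _ hb
        unfold M
        rw [if_neg, zero_mul]
        rintro ⟨h1, -⟩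
        exact hb (Fin.ext h1)
      · intro h
        exact absurd (Finset.mem_univ _) h

end UniAux

/-- For `w ≠ 1` there is `N > 0` such that for every prime `p` not dividing `N` some homomorphism to a finite
`p`-group does not kill `w`. -/
theorem residually_p {α : Type} [DecidableEq α] (w : FreeGroup α) (hw : w ≠ 1) :
    ∃ N : ℕ, 0 < N ∧ ∀ p : ℕ, p.Prime → ¬ p ∣ N →
      ∃ (P : Type) (_ : Group P) (_ : Finite P), IsPGroup p P ∧
        ∃ f : FreeGroup α →* P, f w ≠ 1 := by
  obtain ⟨L, h0, hc, hw'⟩ := UniAux.exists_syl w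
  have hL : L ≠ [] := by
    rintro rfl
    exact hw (by simpa using hw')
  have hpos : 0 < L.length := List.length_pos_iff.2 hL
  have hprod : (L.map Prod.snd).prod ≠ 0 := by
    apply List.prod_ne_zero
    intro h
    obtain ⟨q, hq, hq'⟩ := List.mem_map.1 h
    exact h0 q hq hq'
  refine ⟨((L.map Prod.snd).prod).natAbs, Int.natAbs_pos.2 hprod, ?_⟩
  intro p hp hdvd
  have : Fact p.Prime := ⟨hp⟩
  have : Finite (Matrix (Fin (L.length + 1)) (Fin (L.length + 1)) (ZMod p)) :=
    inferInstance
  have : Finite (Matrix (Fin (L.length + 1)) (Fin (L.length + 1)) (ZMod p))ˣ :=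
    Finite.of_injective (fun g => (g : Matrix (Fin (L.length + 1)) (Fin (L.length + 1)) (ZMod p)))
      Units.val_injective
  refine ⟨UniAux.U (L.length + 1) p, inferInstance, inferInstance,
    UniAux.U_isPGroup _ p hp (Nat.succ_pos _), UniAux.f (L.length + 1) p L hc, ?_⟩
  intro hf
  have h1 := UniAux.f_prod (L.length + 1) p L hc L
  rw [← hw', hf] at h1
  have h2 := (UniAux.entry p L L.length 0 (by omega)).2
  rw [List.drop_zero, ← h1] at h2
  have h3 : ((1 : Matrix (Fin (L.length + 1)) (Fin (L.length + 1)) (ZMod p))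
      ⟨0, by omega⟩ (Fin.last L.length)) = 0 := by
    apply Matrix.one_apply_ne
    intro h
    have := congrArg Fin.val h
    simp at this
    omega
  have h4 : (((L.map Prod.snd).prod : ℤ) : ZMod p) = 0 := by
    rw [← h2]
    exact h3
  rw [ZMod.intCast_zmod_eq_zero_iff_dvd] at h4
  exact hdvd (Int.natCast_dvd.1 h4)

end Pool.Agent.Lib.Pee92d8.R
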