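import Pool.Agent.Lib.Pee92d8r.WMap
import Pool.Agent.Lib.Pee92d8r.Uni

/-!
# `k` elements of `F_k` that are independent in homology generate freely

PROOF TEXT. Let `φ = FreeGroup.lift s` and `w ≠ 1`; to show `φ w ≠ 1` (`injective_iff_map_eq_one`).  Let `N` be as
in `residually_p w`, choose a prime `p` larger than `N` and `|det|` (`Nat.exists_infinite_primes`); then `p` does not
divide `N > 0` nor the nonzero integer `det`.  Let `P`, `f` be the `p`-group and homomorphism of `residually_p`.
`word_map_surjective` with `y i = f (of i)` gives `g : Fin k → P` with `lift g (s i) = f (of i)` for all `i`, so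
`(lift g).comp φ = f` (they agree on generators, `FreeGroup.ext_hom`), hence `lift g (φ w) = f w ≠ 1` and
`φ w ≠ 1`.
-/

set_option autoImplicit false

namespace Pool.Agent.Lib.Pee92d8.R

open FreeGroup

theorem lift_injective {k : ℕ} (s : Fin k → FreeGroup (Fin k))
    (hdet : (Matrix.of fun i j => ex (s i) j).det ≠ 0) :
    Function.Injective (FreeGroup.lift s) := by
  rw [injective_iff_map_eq_one]
  intro w hw
  by_contra hw1
  obtain ⟨N, hN, hP⟩ := residually_p w hw1
  obtain ⟨p, hp1, hp⟩ := Nat.exists_infinite_primes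
    (N + (Matrix.of fun i j => ex (s i) j).det.natAbs + 1)
  have hpN : ¬ p ∣ N := by
    intro h
    have := Nat.le_of_dvd hN h
    omega
  have hpd : ¬ (p : ℤ) ∣ (Matrix.of fun i j => ex (s i) j).det := by
    intro h
    have h1 : p ∣ (Matrix.of fun i j => ex (s i) j).det.natAbs := Int.natCast_dvd.1 h
    have := Nat.le_of_dvd (Int.natAbs_pos.2 hdet) h1
    omega
  obtain ⟨P, hG, hF, hPp, f, hf⟩ := hP p hp hpN
  have : Fact p.Prime := ⟨hp⟩
  obtain ⟨g, hg⟩ := word_map_surjective p s hpd hPp (fun i => f (FreeGroup.of i))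
  have h1 : (FreeGroup.lift g).comp (FreeGroup.lift s) = f := by
    ext i
    simp [hg i]
  apply hf
  rw [← h1, MonoidHom.comp_apply, hw, _root_.map_one]

end Pool.Agent.Lib.Pee92d8.R
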