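import Pool.Agent.Lib.Pee92d8.Growth
import Pool.Agent.Lib.Pee92d8r.Cnt

/-!
# Number of elements of word length at most `r`

PROOF TEXT. Let `φ = FreeGroup.lift f : FreeGroup (Fin n) →* G`.  If `wordLen (Set.range f) g ≤ r`, then by
`wordLen_spec` (file `Pee92d8/Growth.lean`) there is a list `W` with entries in `Set.range f` or with inverse in
`Set.range f`, `W.prod = g`, `W.length = wordLen .. g ≤ r`.  By induction on the list there is
`w : FreeGroup (Fin n)` with `φ w = W.prod` and `w.norm ≤ W.length` (multiply by `of i` or `(of i)⁻¹`;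
`FreeGroup.norm_mul_le`, `FreeGroup.norm_of`, `FreeGroup.norm_inv_eq`).  Hence the set is contained in the image
under `φ` of `{w | w.norm ≤ r}`; `Set.encard_image_le` and `card_ball_le` finish the proof.

`exists_wordLen_le` (finite sets): `{u | u.norm ≤ L}` is finite (`FreeGroup (Fin k)`; see `ball_finite` in
`Pee92d8/Block.lean`), so `wordLen S` is bounded on it.

`norm_le_wordLen`: choose `L` with `x.norm ≤ L` for all `x ∈ S` (finite set); for a word `W` over `S ∪ S⁻¹` with
product `g` and length `wordLen S g` one gets `g.norm ≤ L * W.length` by induction.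
-/

set_option autoImplicit false

namespace Pool.Agent.Lib.Pee92d8.R

open FreeGroup

namespace SphAux

variable {G : Type} [Group G]

theorem lift_word {n : ℕ} (f : Fin n → G) (W : List G)
    (hW : ∀ x ∈ W, x ∈ Set.range f ∨ x⁻¹ ∈ Set.range f) :
    ∃ w : FreeGroup (Fin n), FreeGroup.lift f w = W.prod ∧ w.norm ≤ W.length := by
  induction W with
  | nil =>
    refine ⟨1, ?_, ?_⟩
    · rw [_root_.map_one, List.prod_nil]
    · rw [FreeGroup.norm_one]
      exact Nat.zero_le _
  | cons x W ih =>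
    obtain ⟨w, h1, h2⟩ := ih (fun y hy => hW y (List.mem_cons_of_mem _ hy))
    have hx : ∃ u : FreeGroup (Fin n), FreeGroup.lift f u = x ∧ u.norm ≤ 1 := by
      rcases hW x List.mem_cons_self with ⟨i, hi⟩ | ⟨i, hi⟩
      · refine ⟨of i, ?_, ?_⟩
        · rw [FreeGroup.lift_apply_of, hi]
        · rw [norm_of]
      · refine ⟨(of i)⁻¹, ?_, ?_⟩
        · rw [_root_.map_inv, FreeGroup.lift_apply_of, hi, inv_inv]
        · rw [norm_inv_eq, norm_of]
    obtain ⟨u, h3, h4⟩ := hx
    refine ⟨u * w, ?_, ?_⟩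
    · rw [_root_.map_mul, h3, h1, List.prod_cons]
    · rw [List.length_cons]
      exact (norm_mul_le u w).trans (by omega)

theorem norm_prod_le {k : ℕ} {S : Set (FreeGroup (Fin k))} {L : ℕ} (hL : ∀ x ∈ S, x.norm ≤ L)
    (W : List (FreeGroup (Fin k))) (hW : ∀ x ∈ W, x ∈ S ∨ x⁻¹ ∈ S) :
    W.prod.norm ≤ L * W.length := by
  induction W with
  | nil =>
    rw [List.prod_nil, FreeGroup.norm_one]
    exact Nat.zero_le _
  | cons x W ih =>
    have h1 := ih (fun y hy => hW y (List.mem_cons_of_mem _ hy))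
    have h2 : x.norm ≤ L := by
      rcases hW x List.mem_cons_self with h | h
      · exact hL x h
      · have := hL _ h
        rwa [norm_inv_eq] at this
    rw [List.prod_cons, List.length_cons]
    calc (x * W.prod).norm ≤ x.norm + W.prod.norm := norm_mul_le _ _
      _ ≤ L + L * W.length := Nat.add_le_add h2 h1
      _ = L * (W.length + 1) := by ring

end SphAux

open SphAux

theorem card_wordLen_le {G : Type} [Group G] {n : ℕ} (hn : 2 ≤ n) (f : Fin n → G)
    (hf : Subgroup.closure (Set.range f) = ⊤) (r : ℕ) :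
    {g : G | wordLen (Set.range f) g ≤ r}.encard ≤ ((2 * n * (2 * n - 1) ^ r : ℕ) : ℕ∞) := by
  refine le_trans ?_ (card_ball_le n r hn)
  refine le_trans (Set.encard_le_encard ?_)
    (Set.encard_image_le (FreeGroup.lift f) {w : FreeGroup (Fin n) | w.norm ≤ r})
  intro g hg
  obtain ⟨W, h1, h2, h3⟩ := wordLen_spec hf g
  obtain ⟨w, h4, h5⟩ := SphAux.lift_word f W h1
  refine ⟨w, ?_, h4.trans h2⟩
  have hg' : wordLen (Set.range f) g ≤ r := hg
  exact (h5.trans h3.le).trans hg'

theorem exists_wordLen_le {k : ℕ} (S : Set (FreeGroup (Fin k))) (L : ℕ) :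
    ∃ M : ℕ, ∀ u : FreeGroup (Fin k), u.norm ≤ L → wordLen S u ≤ M := by
  have hfin : {w : FreeGroup (Fin k) | w.norm ≤ L}.Finite := by
    have h := List.finite_length_le (Fin k × Bool) L
    refine Set.Finite.subset (h.preimage (f := FreeGroup.toWord) (toWord_injective.injOn)) ?_
    intro w hw
    exact hw
  obtain ⟨M, hM⟩ := (hfin.image (wordLen S)).bddAbove
  exact ⟨M, fun u hu => hM ⟨u, hu, rfl⟩⟩

theorem norm_le_wordLen {k : ℕ} {S : Set (FreeGroup (Fin k))} (hfin : S.Finite)
    (hS : Subgroup.closure S = ⊤) :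
    ∃ L : ℕ, (∀ x ∈ S, x.norm ≤ L) ∧ ∀ g : FreeGroup (Fin k), g.norm ≤ L * wordLen S g := by
  obtain ⟨L, hL⟩ := (hfin.image FreeGroup.norm).bddAbove
  have hL' : ∀ x ∈ S, x.norm ≤ L := fun x hx => hL ⟨x, hx, rfl⟩
  refine ⟨L, hL', fun g => ?_⟩
  obtain ⟨W, h1, h2, h3⟩ := wordLen_spec hS g
  have h4 := SphAux.norm_prod_le hL' W h1
  rwa [h2, h3] at h4

/-- elementary properties of the word length -/
theorem wordLen_mul_le {G : Type} [Group G] {S : Set G} (hS : Subgroup.closure S = ⊤) (g h : G) :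
    wordLen S (g * h) ≤ wordLen S g + wordLen S h := by
  obtain ⟨W, h1, h2, h3⟩ := wordLen_spec hS g
  obtain ⟨V, k1, k2, k3⟩ := wordLen_spec hS h
  have h4 : ∀ x ∈ W ++ V, x ∈ S ∨ x⁻¹ ∈ S := by
    intro x hx
    rcases List.mem_append.1 hx with hx | hx
    · exact h1 x hx
    · exact k1 x hx
  have h5 := wordLen_le h4
  rwa [List.prod_append, List.length_append, h2, k2, h3, k3] at h5

theorem wordLen_inv {G : Type} [Group G] {S : Set G} (hS : Subgroup.closure S = ⊤) (g : G) :
    wordLen S g⁻¹ = wordLen S g := by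
  have key : ∀ g : G, wordLen S g⁻¹ ≤ wordLen S g := by
    intro g
    obtain ⟨W, h1, h2, h3⟩ := wordLen_spec hS g
    have h4 : ∀ x ∈ (W.map (fun x => x⁻¹)).reverse, x ∈ S ∨ x⁻¹ ∈ S := by
      intro x hx
      rw [List.mem_reverse, List.mem_map] at hx
      obtain ⟨y, hy, rfl⟩ := hx
      rw [inv_inv]
      exact (h1 y hy).symm
    have h5 := wordLen_le h4
    rwa [← List.prod_inv_reverse, List.length_reverse, List.length_map, h2, h3] at h5
  apply le_antisymm (key g)
  have := key g⁻¹
  rwa [inv_inv] at this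

end Pool.Agent.Lib.Pee92d8.R
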