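import Pool.Agent.Lib.Pee92d8r.Inj
import Pool.Agent.Lib.Pee92d8r.Cen
import Pool.Agent.Lib.Pee92d8r.Sph

/-!
# Lower bound: many short conjugates of a primitive element

PROOF TEXT. Let `s` be as in `exists_indep hS`, `φ = FreeGroup.lift s`, injective by `lift_injective`.  Let
`x = of ⟨0, _⟩` (primitive: the standard basis `FreeGroupBasis.ofRepr (MulEquiv.refl _)`; compare
`isPrimitive_pow_mul` in `Pee92d8/Growth.lean`), `c0 = wordLen S x`, `L` as in `norm_le_wordLen hfin hS`.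
For `w` with `w.norm ≤ r`: `wordLen S (φ w) ≤ r` (write `w = mk w.toWord` and use `wordLen_mul_le`, `wordLen_inv`
letter by letter: every `s i ∈ S` has word length at most `1`; `wordLen S 1 = 0`).  So
`g = φ w * x * (φ w)⁻¹` is primitive (`IsPrimitive.conj`) and `wordLen S g ≤ 2 r + c0`.

FIBRES: if `w, w'` in the ball give the same `g`, then `v = w'⁻¹ * w` has `φ v` commuting with `x`, so
`φ v = x ^ n` (`commute_of`), and `n.natAbs = (x^n).norm ≤ L * wordLen S (φ v) ≤ L * (2 r)`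
(`norm_of_zpow`, `wordLen_mul_le`, `wordLen_inv`).  As `φ` is injective, `w` is determined by `w'` and `n`.
Hence every fibre of `w ↦ g` on the ball has at most `4 L r + 1` elements, and
`encard (ball r) ≤ (4 L r + 1) * encard {g | primitive, wordLen S g ≤ 2 r + c0}`
(finite sets: `wordLen_finite hfin hS`; `Finset.card_le_mul_card_image` or an injection of the ball into
`image ×ˢ Finset.Icc (-(2 L r)) (2 L r)`).
The last set is the union of the `primElts k S N`, `N < 2 r + c0 + 1`, so its encard is at most the sum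
(`Finset` union bound).  With `le_card_ball k r` and `C = 4 L + 1` this is the claim.
-/

set_option autoImplicit false

namespace Pool.Agent.Lib.Pee92d8.R

open FreeGroup

namespace LowAAux

theorem wl_lift {k : ℕ} {S : Set (FreeGroup (Fin k))} {s : Fin k → FreeGroup (Fin k)}
    (hs : ∀ i, s i ∈ S) (w : FreeGroup (Fin k)) : wordLen S (FreeGroup.lift s w) ≤ w.norm := by
  have h1 : FreeGroup.lift s w = (w.toWord.map fun x => cond x.2 (s x.1) (s x.1)⁻¹).prod := by
    conv_lhs => rw [← FreeGroup.mk_toWord (x := w)]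
    rw [FreeGroup.lift_mk]
  rw [h1]
  refine (wordLen_le ?_).trans (le_of_eq ?_)
  · intro x hx
    obtain ⟨a, _, rfl⟩ := List.mem_map.1 hx
    obtain ⟨i, b⟩ := a
    cases b
    · right
      change ((s i)⁻¹)⁻¹ ∈ S
      rw [inv_inv]
      exact hs i
    · left
      exact hs i
  · rw [List.length_map]
    rfl

theorem prim_of {k : ℕ} (i : Fin k) : IsPrimitive (of i : FreeGroup (Fin k)) :=
  ⟨Fin k, ⟨MulEquiv.refl _⟩, i, rfl⟩

theorem union_le {k : ℕ} {S : Set (FreeGroup (Fin k))} (m : ℕ) :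
    {g : FreeGroup (Fin k) | IsPrimitive g ∧ wordLen S g < m}.encard ≤
      ∑ N ∈ Finset.range m, (primElts k S N).encard := by
  induction m with
  | zero =>
    have h : {g : FreeGroup (Fin k) | IsPrimitive g ∧ wordLen S g < 0} = ∅ := by
      ext g
      simp
    rw [h, Set.encard_empty]
    exact bot_le
  | succ m ih =>
    rw [Finset.sum_range_succ]
    refine (Set.encard_le_encard ?_).trans ((Set.encard_union_le _ _).trans
      (add_le_add_left ih _))
    rintro g ⟨h1, h2⟩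
    rcases Nat.lt_succ_iff_lt_or_eq.1 h2 with h3 | h3
    · exact Or.inl ⟨h1, h3⟩
    · exact Or.inr ⟨h1, h3⟩

theorem encard_Icc (M : ℕ) : (Set.Icc (-(M : ℤ)) M).encard = ((2 * M + 1 : ℕ) : ℕ∞) := by
  rw [← Finset.coe_Icc, Set.encard_coe_eq_coe_finsetCard, Int.card_Icc]
  congr 1
  omega

end LowAAux

open LowAAux

theorem low_count (k : ℕ) (hk : 2 ≤ k) (S : Set (FreeGroup (Fin k))) (hfin : S.Finite)
    (hS : Subgroup.closure S = ⊤) :
    ∃ C c0 : ℕ, ∀ r : ℕ, (((2 * k - 1) ^ r : ℕ) : ℕ∞) ≤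
      ((C * (r + 1) : ℕ) : ℕ∞) * ∑ N ∈ Finset.range (2 * r + c0 + 1), (primElts k S N).encard := by
  obtain ⟨s, hs, hdet⟩ := exists_indep hS
  have hinj := lift_injective s hdet
  obtain ⟨L, -, hL⟩ := norm_le_wordLen hfin hS
  set φ := FreeGroup.lift s with hφ
  set i0 : Fin k := ⟨0, by omega⟩ with hi0
  set x : FreeGroup (Fin k) := of i0 with hx
  refine ⟨4 * L + 1, wordLen S x, fun r => ?_⟩
  set B : Set (FreeGroup (Fin k)) := {w | w.norm ≤ r} with hB
  set G : FreeGroup (Fin k) → FreeGroup (Fin k) := fun w => φ w * x * (φ w)⁻¹ with hG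
  set T : Set (FreeGroup (Fin k)) :=
    {g | IsPrimitive g ∧ wordLen S g < 2 * r + wordLen S x + 1} with hT
  have hwl : ∀ w ∈ B, wordLen S (φ w) ≤ r := fun w hw => (wl_lift hs w).trans hw
  have hGT : ∀ w ∈ B, G w ∈ T := by
    intro w hw
    refine ⟨(prim_of i0).conj (φ w), ?_⟩
    have h1 := wordLen_mul_le hS (φ w * x) (φ w)⁻¹
    have h2 := wordLen_mul_le hS (φ w) x
    have h3 := wordLen_inv hS (φ w)
    have h4 := hwl w hw
    change wordLen S (φ w * x * (φ w)⁻¹) < _
    omega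
  have key : ∀ w ∈ B, ∀ w' ∈ B, G w' = G w →
      ∃ n : ℤ, φ (w'⁻¹ * w) = x ^ n ∧ n ∈ Set.Icc (-((2 * L * r : ℕ) : ℤ)) ((2 * L * r : ℕ) : ℤ) := by
    intro w hw w' hw' he
    have h1 : x * φ (w'⁻¹ * w) = φ (w'⁻¹ * w) * x := by
      rw [_root_.map_mul, _root_.map_inv]
      have h2 : φ w' * x * (φ w')⁻¹ = φ w * x * (φ w)⁻¹ := he
      calc x * ((φ w')⁻¹ * φ w) = (φ w')⁻¹ * (φ w' * x * (φ w')⁻¹) * φ w := by group
        _ = (φ w')⁻¹ * (φ w * x * (φ w)⁻¹) * φ w := by rw [h2]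
        _ = (φ w')⁻¹ * φ w * x := by group
    obtain ⟨n, hn⟩ := commute_of i0 _ h1
    refine ⟨n, hn, ?_⟩
    have h3 : n.natAbs ≤ L * (2 * r) := by
      rw [← norm_of_zpow i0 n, ← hn]
      refine (hL _).trans (Nat.mul_le_mul_left _ ?_)
      rw [_root_.map_mul, _root_.map_inv]
      have h4 := wordLen_mul_le hS (φ w')⁻¹ (φ w)
      have h5 := wordLen_inv hS (φ w')
      have h6 := hwl w hw
      have h7 := hwl w' hw'
      omega
    have h4 : L * (2 * r) = 2 * L * r := by ring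
    rw [h4] at h3
    rw [Set.mem_Icc]
    omega
  have hex : ∀ w ∈ B, ∃ a ∈ B, G a = G w := fun w hw => ⟨w, hw, rfl⟩
  have key2 : ∀ w ∈ B, ∃ n : ℤ, φ ((Function.invFunOn G B (G w))⁻¹ * w) = x ^ n ∧
      n ∈ Set.Icc (-((2 * L * r : ℕ) : ℤ)) ((2 * L * r : ℕ) : ℤ) := fun w hw =>
    key w hw _ (Function.invFunOn_mem (hex w hw)) (Function.invFunOn_eq (hex w hw))
  choose! n hn1 hn2 using key2
  have h1 : B.encard ≤ (T ×ˢ Set.Icc (-((2 * L * r : ℕ) : ℤ)) ((2 * L * r : ℕ) : ℤ)).encard := by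
    refine Set.encard_le_encard_of_injOn (f := fun w => (G w, n w)) ?_ ?_
    · intro w hw
      exact ⟨hGT w hw, hn2 w hw⟩
    · intro w hw w' hw' he
      have e1 : G w = G w' := congrArg Prod.fst he
      have e2 : n w = n w' := congrArg Prod.snd he
      have h2 := hn1 w hw
      rw [e1, e2, ← hn1 w' hw'] at h2
      exact mul_left_cancel (hinj h2)
  rw [Set.encard_prod, encard_Icc] at h1
  refine (le_card_ball k r (by omega)).trans (h1.trans ?_)
  rw [mul_comm]
  refine mul_le_mul' ?_ (union_le _)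
  rw [Nat.cast_le]
  nlinarith [Nat.zero_le L, Nat.zero_le r]

end Pool.Agent.Lib.Pee92d8.R
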