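import Pool.Agent.Lib.Pee92d8r.Pre
import Pool.Agent.Lib.Pee92d8r.Sph

/-!
# Upper bound for the number of primitive elements of length `N`

PROOF TEXT. Write `S = Set.range f`, `n = k + 1`, `F = FreeGroup (Fin k)`.  Let `L` be as in `norm_le_wordLen` (so
`x.norm ≤ L` for `x ∈ S`, hence also for `x⁻¹ ∈ S`), and let `M` bound `wordLen S u` for `u.norm ≤ L`
(`exists_wordLen_le`).  Let `g` be primitive with `wordLen S g = N` and `W` a word over `S ∪ S⁻¹` of length `N` with
product `g` (`wordLen_spec`).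

Put `T = reduceCyclically.conjugator g.toWord`, `c = mk (reduceCyclically g.toWord)`, `t = mk T`
(compare `exists_cyc` in `Pee92d8/Growth.lean`): `c.toWord` is cyclically reduced and
`g.toWord = T ++ c.toWord ++ invRev T` (`reduceCyclically.conj_conjugator_reduceCyclically`).  So `T` and
`T ++ c.toWord` are reduced lists (infixes of a reduced list, `red_of_infix`), `t.toWord = T`,
`(t * c).toWord = T ++ c.toWord`, `g = t * c * t⁻¹`, and `t.toWord <+: (t*c).toWord <+: g.toWord`.
By `prefix_path` (with `t' = t * c`) there are `i ≤ j ≤ N` with `u := p_i⁻¹ * t`, `v := p_j⁻¹ * (t * c)` of norm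
`≤ L`, where `p_m = (W.take m).prod`.

(1) `t = p_i * u` and `wordLen S p_i ≤ i`.  Also `t = (g⁻¹ * p_j) * v` (because `g⁻¹ * (t * c) = t`), and
`wordLen S (g⁻¹ * p_j) ≤ N - j` (`p_j⁻¹ * g = (W.drop j).prod`).  Since `min i (N - j) ≤ (N - (j - i)) / 2`, the
element `t` is in the set `Tset (N - (j-i))`, where
`Tset m = {t | ∃ a u, wordLen S a ≤ m / 2 ∧ u.norm ≤ L ∧ t = a * u}`.
(2) `t⁻¹`-conjugation: `c = u⁻¹ * (p_i⁻¹ * p_j) * v`, so `c` is conjugate to `(p_i⁻¹ * p_j) * (v * u⁻¹)`, which is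
the product of a word over `S ∪ S⁻¹` of length at most `(j - i) + 2 M`
(`p_i⁻¹ * p_j = ((W.take j).drop i).prod`, and words of length `≤ M` for `v`, `u⁻¹`).  `c` is primitive
(`IsPrimitive.conj`), so the hypothesis `hlow` gives `2 * c.toWord.length ≤ (j - i) + 2 M`, that is,
`c ∈ Cset (j-i)`, `Cset m = {c | c.norm ≤ m / 2 + M}`.
Hence `primElts k S N` is contained in the union over `i, j ≤ N`, `i ≤ j` of the images of
`Tset (N - (j-i)) ×ˢ Cset (j-i)` under `(t, c) ↦ t * c * t⁻¹`.

COUNT: `encard (Tset m) ≤ 2 (k+1) (2k+1)^(m/2) * B`, `B = encard {u | u.norm ≤ L}` (finite), by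
`card_wordLen_le` for `n = k+1` (`2 (k+1) - 1 = 2k+1`); `encard (Cset m) ≤ (2k+1)^(m/2 + M)` by `ball_encard`
(`Pee92d8/Growth.lean`).  With `m = j - i`: `(N - m) / 2 + m / 2 ≤ N / 2`, so each of the at most `(N+1)^2` pairs
contributes at most `2 (k+1) B (2k+1)^M * (2k+1)^(N/2)`.
-/

set_option autoImplicit false

namespace Pool.Agent.Lib.Pee92d8.R

open FreeGroup

namespace UpAAux

theorem encard_union_le {α : Type} (A : ℕ → Set α) (K n : ℕ)
    (h : ∀ m < n, (A m).encard ≤ (K : ℕ∞)) :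
    {x | ∃ m < n, x ∈ A m}.encard ≤ ((n * K : ℕ) : ℕ∞) := by
  induction n with
  | zero => simp
  | succ n ih =>
    have h1 : {x | ∃ m < n + 1, x ∈ A m} ⊆ {x | ∃ m < n, x ∈ A m} ∪ A n := by
      rintro x ⟨m, hm, hx⟩
      rcases Nat.lt_succ_iff_lt_or_eq.1 hm with h2 | rfl
      · exact Or.inl ⟨m, h2, hx⟩
      · exact Or.inr hx
    refine (Set.encard_le_encard h1).trans ((Set.encard_union_le _ _).trans ?_)
    refine (add_le_add (ih fun m hm => h m (Nat.lt_succ_of_lt hm))
      (h n (Nat.lt_succ_self n))).trans (le_of_eq ?_)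
    rw [← Nat.cast_add]
    congr 1
    ring

theorem encard_image2_le {α β γ : Type} (F : α → β → γ) (A : Set α) (B : Set β) (a b : ℕ)
    (hA : A.encard ≤ (a : ℕ∞)) (hB : B.encard ≤ (b : ℕ∞)) :
    {x | ∃ p ∈ A, ∃ q ∈ B, x = F p q}.encard ≤ ((a * b : ℕ) : ℕ∞) := by
  have h1 : {x | ∃ p ∈ A, ∃ q ∈ B, x = F p q} ⊆ (fun z : α × β => F z.1 z.2) '' (A ×ˢ B) := by
    rintro x ⟨p, hp, q, hq, rfl⟩
    exact ⟨(p, q), ⟨hp, hq⟩, rfl⟩
  refine (Set.encard_le_encard h1).trans ((Set.encard_image_le _ _).trans ?_)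
  rw [Set.encard_prod, Nat.cast_mul]
  exact mul_le_mul' hA hB

theorem take_prod {G : Type} [Group G] (W : List G) {i j : ℕ} (hij : i ≤ j) :
    (W.take i).prod⁻¹ * (W.take j).prod = ((W.take j).drop i).prod := by
  have h1 : W.take i ++ (W.take j).drop i = W.take j := by
    have h2 := List.take_append_drop i (W.take j)
    rw [List.take_take, Nat.min_eq_left hij] at h2
    exact h2
  rw [← h1, List.prod_append]
  rw [h1]
  group

end UpAAux

open UpAAux in
theorem primElts_count (k : ℕ) (hk : 2 ≤ k) (f : Fin (k + 1) → FreeGroup (Fin k))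
    (hf : Subgroup.closure (Set.range f) = ⊤)
    (hlow : ∀ c : FreeGroup (Fin k), IsCyclicallyReduced c.toWord → IsPrimitive c →
      ∀ (t : FreeGroup (Fin k)) (W : List (FreeGroup (Fin k))),
        (∀ x ∈ W, x ∈ Set.range f ∨ x⁻¹ ∈ Set.range f) → W.prod = t * c * t⁻¹ →
        2 * c.toWord.length ≤ W.length) :
    ∃ C : ℕ, ∀ N : ℕ, (primElts k (Set.range f) N).encard ≤
      ((C * (N + 1) ^ 2 * (2 * k + 1) ^ (N / 2) : ℕ) : ℕ∞) := by
  obtain ⟨L, hL, -⟩ := norm_le_wordLen (Set.finite_range f) hf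
  obtain ⟨M, hM⟩ := exists_wordLen_le (Set.range f) L
  refine ⟨2 * (k + 1) * (2 * k + 1) ^ L * (2 * k + 1) ^ M, fun N => ?_⟩
  let Ts : ℕ → Set (FreeGroup (Fin k)) := fun m =>
    {t | ∃ a ∈ {a | wordLen (Set.range f) a ≤ m / 2}, ∃ u ∈ {u : FreeGroup (Fin k) | u.norm ≤ L},
      t = a * u}
  let Cs : ℕ → Set (FreeGroup (Fin k)) := fun m => {c | c.toWord.length ≤ m / 2 + M}
  have hTs : ∀ m, (Ts m).encard ≤
      ((2 * (k + 1) * (2 * k + 1) ^ (m / 2) * (2 * k + 1) ^ L : ℕ) : ℕ∞) := by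
    intro m
    refine encard_image2_le (fun a u : FreeGroup (Fin k) => a * u) _ _ _ _ ?_ ?_
    · have h1 := card_wordLen_le (by omega : 2 ≤ k + 1) f hf (m / 2)
      have h2 : 2 * (k + 1) - 1 = 2 * k + 1 := by omega
      rw [h2] at h1
      exact h1
    · have h1 := ball_encard k L
      rw [← Nat.cast_pow] at h1
      exact h1
  have hCs : ∀ m, (Cs m).encard ≤ (((2 * k + 1) ^ (m / 2 + M) : ℕ) : ℕ∞) := by
    intro m
    have h1 := ball_encard k (m / 2 + M)
    rw [← Nat.cast_pow] at h1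
    exact h1
  have hsub : primElts k (Set.range f) N ⊆ {x | ∃ m < N + 1,
      x ∈ {y | ∃ t ∈ Ts (N - m), ∃ c ∈ Cs m, y = t * c * t⁻¹}} := by
    rintro g ⟨hg, hgN⟩
    obtain ⟨W, hW1, hW2, hW3⟩ := wordLen_spec hf g
    rw [hgN] at hW3
    have hWL : ∀ x ∈ W, x.norm ≤ L := by
      intro x hx
      rcases hW1 x hx with h | h
      · exact hL x h
      · rw [← FreeGroup.norm_inv_eq]
        exact hL _ h
    set T := reduceCyclically.conjugator g.toWord with hT
    set D := reduceCyclically g.toWord with hD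
    have hdec : T ++ D ++ invRev T = g.toWord :=
      reduceCyclically.conj_conjugator_reduceCyclically _
    have hred : IsReduced g.toWord := isReduced_toWord
    have hTD : IsReduced (T ++ D) := by
      refine red_of_infix hred ⟨[], invRev T, ?_⟩
      rw [List.nil_append]
      exact hdec
    have hTr : IsReduced T := red_of_infix hTD ⟨[], D, rfl⟩
    have hDc : IsCyclicallyReduced D := reduceCyclically.isCyclicallyReduced hred
    obtain ⟨t, ht⟩ : ∃ t : FreeGroup (Fin k), t = mk T := ⟨_, rfl⟩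
    obtain ⟨c, hc⟩ : ∃ c : FreeGroup (Fin k), c = mk D := ⟨_, rfl⟩
    have htw : t.toWord = T := by rw [ht, toWord_mk_of_isReduced hTr]
    have hcw : c.toWord = D := by rw [hc, toWord_mk_of_isReduced hDc.1]
    have htc : (t * c).toWord = T ++ D := by
      rw [ht, hc, ← mk_append, toWord_mk_of_isReduced hTD]
    have hgt : g = t * c * t⁻¹ := by
      rw [ht, hc, inv_mk, mul_mk, mul_mk, hdec, mk_toWord]
    obtain ⟨i, j, hij, hj, hu, hv⟩ := prefix_path L W hWL t (t * c)
      (by rw [htw, htc]; exact List.prefix_append _ _)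
      (by rw [htc, hW2, ← hdec]; exact List.prefix_append _ _)
    obtain ⟨u, hu'⟩ : ∃ u, u = (W.take i).prod⁻¹ * t := ⟨_, rfl⟩
    obtain ⟨v, hv'⟩ : ∃ v, v = (W.take j).prod⁻¹ * (t * c) := ⟨_, rfl⟩
    rw [← hu'] at hu
    rw [← hv'] at hv
    have hsubW : ∀ W' : List (FreeGroup (Fin k)), (∀ x ∈ W', x ∈ W) →
        ∀ x ∈ W', x ∈ Set.range f ∨ x⁻¹ ∈ Set.range f := fun W' h x hx => hW1 x (h x hx)
    have hp1 : wordLen (Set.range f) (W.take i).prod ≤ i := by
      refine (wordLen_le (hsubW _ fun x hx => List.mem_of_mem_take hx)).trans ?_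
      rw [List.length_take]
      exact Nat.min_le_left _ _
    have hp2 : wordLen (Set.range f) (g⁻¹ * (W.take j).prod) ≤ N - j := by
      have h1 : g⁻¹ * (W.take j).prod = (W.drop j).prod⁻¹ := by
        have h2 : g = (W.take j).prod * (W.drop j).prod := by
          rw [← List.prod_append, List.take_append_drop, hW2]
        rw [h2]
        group
      rw [h1, wordLen_inv hf]
      refine (wordLen_le (hsubW _ fun x hx => List.mem_of_mem_drop hx)).trans ?_
      rw [List.length_drop, hW3]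
    have hcp : IsPrimitive c := by
      have h1 := hg.conj t⁻¹
      rw [hgt] at h1
      have h3 : t⁻¹ * (t * c * t⁻¹) * t⁻¹⁻¹ = c := by group
      rwa [h3] at h1
    refine ⟨j - i, by omega, t, ?_, c, ?_, hgt⟩
    · by_cases hcase : i ≤ N - j
      · refine ⟨(W.take i).prod, ?_, u, hu, ?_⟩
        · refine hp1.trans ?_
          rw [Nat.le_div_iff_mul_le (by norm_num)]
          omega
        · rw [hu']
          group
      · refine ⟨g⁻¹ * (W.take j).prod, ?_, v, hv, ?_⟩
        · refine hp2.trans ?_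
          rw [Nat.le_div_iff_mul_le (by norm_num)]
          omega
        · rw [hv', hgt]
          group
    · obtain ⟨Wv, hv1, hv2, hv3⟩ := wordLen_spec hf v
      obtain ⟨Wu, hu1, hu2, hu3⟩ := wordLen_spec hf u⁻¹
      have hvM := hM v hv
      have huM := hM u⁻¹ (by rw [FreeGroup.norm_inv_eq]; exact hu)
      have h1 := hlow c (by rw [hcw]; exact hDc) hcp u
        ((W.take j).drop i ++ Wv ++ Wu) (by
          intro x hx
          rw [List.mem_append, List.mem_append] at hx
          rcases hx with (hx | hx) | hx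
          · exact hW1 x (List.mem_of_mem_take (List.mem_of_mem_drop hx))
          · exact hv1 x hx
          · exact hu1 x hx) (by
          rw [List.prod_append, List.prod_append, hv2, hu2, ← take_prod W hij, hu', hv']
          group)
      rw [List.length_append, List.length_append, List.length_drop, List.length_take] at h1
      have h2 : min j W.length - i ≤ j - i := by omega
      show c.toWord.length ≤ (j - i) / 2 + M
      have h3 : 2 * c.toWord.length ≤ (j - i) + 2 * M := by omega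
      omega
  refine (Set.encard_le_encard hsub).trans ?_
  refine (encard_union_le (fun m => {y | ∃ t ∈ Ts (N - m), ∃ c ∈ Cs m, y = t * c * t⁻¹})
    (2 * (k + 1) * (2 * k + 1) ^ L * (2 * k + 1) ^ M * (2 * k + 1) ^ (N / 2)) (N + 1)
    fun m hm => ?_).trans ?_
  · refine (encard_image2_le (fun t c : FreeGroup (Fin k) => t * c * t⁻¹) _ _ _ _ (hTs (N - m))
      (hCs m)).trans ?_
    rw [Nat.cast_le]
    have h1 : (2 * k + 1) ^ ((N - m) / 2) * (2 * k + 1) ^ (m / 2) ≤ (2 * k + 1) ^ (N / 2) := by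
      rw [← pow_add]
      exact Nat.pow_le_pow_right (by omega) (by omega)
    calc 2 * (k + 1) * (2 * k + 1) ^ ((N - m) / 2) * (2 * k + 1) ^ L *
          (2 * k + 1) ^ (m / 2 + M)
        = 2 * (k + 1) * (2 * k + 1) ^ L * (2 * k + 1) ^ M *
          ((2 * k + 1) ^ ((N - m) / 2) * (2 * k + 1) ^ (m / 2)) := by
          rw [pow_add]
          ring
      _ ≤ _ := Nat.mul_le_mul_left _ h1
  · rw [Nat.cast_le]
    have h1 : N + 1 ≤ (N + 1) ^ 2 := by nlinarith
    calc (N + 1) * (2 * (k + 1) * (2 * k + 1) ^ L * (2 * k + 1) ^ M * (2 * k + 1) ^ (N / 2))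
        ≤ (N + 1) ^ 2 *
          (2 * (k + 1) * (2 * k + 1) ^ L * (2 * k + 1) ^ M * (2 * k + 1) ^ (N / 2)) :=
          Nat.mul_le_mul_right _ h1
      _ = _ := by ring

end Pool.Agent.Lib.Pee92d8.R
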