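import Pool.Agent.Lib.Pee92d8r.Gen
import Pool.Agent.Lib.Pee92d8r.UpA
import Pool.Agent.Lib.Pee92d8r.LowA
import Pool.Agent.Lib.Pee92d8r.An

/-!
# Bounds for the infimum of the growth rates of primitive elements

PROOF TEXT. `rho_upper`: take `f` from `exists_gens_range`, `C` from `primElts_count`, and apply
`limsup_upper` with `a N = ((primElts k (Set.range f) N).encard : ℝ≥0∞)`, `b = 2 k + 1`.
`rho_lower`: `C`, `c0` from `low_count`; apply `limsup_lower` with `a N = ((primElts k S N).encard : ℝ≥0∞)`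
(finite: `primElts k S N` is contained in a finite set, `wordLen_finite`), `β = sqrt (2 k - 1) > 1`
(`β ^ (2 r) = (2 k - 1) ^ r`), and `ENNReal.ofReal (sqrt (2k-1)) = (2k-1)^(1/2)`
(`Real.sqrt_eq_rpow`, `ENNReal.ofReal_rpow_of_nonneg`).
-/

set_option autoImplicit false

namespace Pool.Agent.Lib.Pee92d8.R

open FreeGroup
open scoped ENNReal

theorem rho_upper (k : ℕ) (hk : 2 ≤ k) :
    ∃ S : Set (FreeGroup (Fin k)), S.Finite ∧ Subgroup.closure S = ⊤ ∧
      rhoGrowth k S ≤ ((2 * k + 1 : ℕ) : ℝ≥0∞) ^ ((1 : ℝ) / 2) := by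
  obtain ⟨f, hf, hlow⟩ := exists_gens_range k hk
  obtain ⟨C, hC⟩ := primElts_count k hk f hf hlow
  refine ⟨Set.range f, Set.finite_range f, hf, ?_⟩
  unfold rhoGrowth
  refine limsup_upper _ (2 * k + 1) C (by omega) fun N => ?_
  have h := ENat.toENNReal_le.2 (hC N)
  rwa [ENat.toENNReal_coe] at h

theorem rho_lower (k : ℕ) (hk : 2 ≤ k) (S : Set (FreeGroup (Fin k))) (hfin : S.Finite)
    (hS : Subgroup.closure S = ⊤) :
    ((2 * k - 1 : ℕ) : ℝ≥0∞) ^ ((1 : ℝ) / 2) ≤ rhoGrowth k S := by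
  obtain ⟨C, c0, h⟩ := low_count k hk S hfin hS
  have h0 : (0 : ℝ) ≤ ((2 * k - 1 : ℕ) : ℝ) := Nat.cast_nonneg _
  have hβ : (1 : ℝ) < √((2 * k - 1 : ℕ) : ℝ) := by
    have h1 : 1 < 2 * k - 1 := by omega
    have h2 : (1 : ℝ) < ((2 * k - 1 : ℕ) : ℝ) := by exact_mod_cast h1
    rw [Real.lt_sqrt zero_le_one, one_pow]
    exact h2
  have h1 := limsup_lower (fun N => ((primElts k S N).encard : ℝ≥0∞)) (fun N => ?_)
    (√((2 * k - 1 : ℕ) : ℝ)) hβ C c0 (fun r => ?_)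
  · rw [Real.sqrt_eq_rpow, ← ENNReal.ofReal_rpow_of_nonneg h0 (by positivity),
      ENNReal.ofReal_natCast] at h1
    exact h1
  · have h2 : (primElts k S N).Finite :=
      (wordLen_finite hfin hS N).subset fun g hg => hg.2
    have h3 : (primElts k S N).encard ≠ ⊤ := Set.encard_ne_top_iff.2 h2
    intro h4
    exact h3 (ENat.toENNReal_eq_top.1 h4)
  · have h2 := ENat.toENNReal_le.2 (h r)
    rw [pow_mul, Real.sq_sqrt h0, ← Nat.cast_pow, ENNReal.ofReal_natCast]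
    rw [ENat.toENNReal_coe, ENat.toENNReal_mul, ENat.toENNReal_coe] at h2
    refine h2.trans (le_of_eq ?_)
    congr 1
    exact map_sum ENat.toENNRealRingHom _ _

end Pool.Agent.Lib.Pee92d8.R
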