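import Pool.Agent.Lib.Pee92d8.FG

/-!
# Paths in the Cayley tree pass close to every vertex of the geodesic

PROOF TEXT. STEP: if `x, y` are in the free group, `t.toWord <+: (x * y).toWord` and not
`t.toWord <+: x.toWord`, then `((x * y)⁻¹ * t).norm ≤ y.norm`.
Proof: `mul_decomp x y` (file `FG.lean`) gives lists `A, B, C` with `x.toWord = A ++ C`,
`y.toWord = invRev C ++ B`, `(x * y).toWord = A ++ B`.  `t.toWord` is a prefix of `A ++ B` but not of `A ++ C`, so
it is not a prefix of `A`; hence `t.toWord = A ++ B1` with `B = B1 ++ B2`.  Then `(x * y)⁻¹ * t = (mk B2)⁻¹`, whose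
norm is at most `B2.length ≤ B.length ≤ y.norm`.

LEMMA: let `p m = (W.take m).prod`, `N = W.length`, and `A t = {m ≤ N | t.toWord <+: (p m).toWord}`.  If `N` is in
`A t`, let `i` be the least number such that all `m` with `i ≤ m ≤ N` are in `A t` (`Nat.find`).  If `i = 0` then
`t.toWord <+: (1 : FreeGroup α).toWord = []`, so `t = 1` and `(p 0)⁻¹ * t = 1`.  If `i > 0` then `i - 1` is not in
`A t`, `i` is in `A t` and `p i = p (i-1) * W[i-1]` with `W[i-1].norm ≤ L`, so STEP gives
`((p i)⁻¹ * t).norm ≤ L`.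
For `t'` (with `t.toWord <+: t'.toWord <+: W.prod.toWord`) define `j` in the same way.  `A t'` is contained in
`A t` (prefix is transitive), so `i ≤ j`.  (`p N = W.prod`.)
-/

set_option autoImplicit false

namespace Pool.Agent.Lib.Pee92d8.R

open FreeGroup

variable {α : Type} [DecidableEq α]

namespace PreAux

theorem step (x y t : FreeGroup α) (h : t.toWord <+: (x * y).toWord)
    (hn : ¬ t.toWord <+: x.toWord) : ((x * y)⁻¹ * t).norm ≤ y.norm := by
  obtain ⟨A, B, C, h1, h2, h3⟩ := mul_decomp x y
  rw [h3] at h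
  rw [h1] at hn
  rcases List.prefix_or_prefix_of_prefix h (List.prefix_append A B) with h4 | h4
  · exact absurd (h4.trans (List.prefix_append A C)) hn
  · obtain ⟨B1, hB1⟩ := h4
    rw [← hB1, List.prefix_append_right_inj] at h
    obtain ⟨B2, hB2⟩ := h
    have e1 : x * y = t * mk B2 := by
      rw [← mk_toWord (x := x * y), ← mk_toWord (x := t), h3, ← hB1, ← hB2, ← mk_append,
        List.append_assoc]
    have e2 : (x * y)⁻¹ * t = (mk B2)⁻¹ := by
      rw [e1]
      group
    rw [e2, norm_inv_eq]
    refine norm_mk_le.trans ?_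
    have e3 : y.norm = y.toWord.length := rfl
    rw [e3, h2, ← hB2, List.length_append, List.length_append]
    omega

/-- all later products have the prefix -/
def Q (W : List (FreeGroup α)) (t : FreeGroup α) (m : ℕ) : Prop :=
  ∀ k, m ≤ k → k ≤ W.length → t.toWord <+: (W.take k).prod.toWord

theorem near (L : ℕ) (W : List (FreeGroup α)) (hW : ∀ x ∈ W, x.norm ≤ L)
    (t : FreeGroup α) (h : t.toWord <+: W.prod.toWord) :
    ∃ i : ℕ, i ≤ W.length ∧ Q W t i ∧ (∀ m, m < i → ¬ Q W t m) ∧
      ((W.take i).prod⁻¹ * t).norm ≤ L := by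
  classical
  have hN : ∃ m, Q W t m := by
    refine ⟨W.length, fun k h1 h2 => ?_⟩
    have : k = W.length := le_antisymm h2 h1
    rw [this, List.take_length]
    exact h
  have hle : Nat.find hN ≤ W.length := by
    apply Nat.find_min' hN
    intro k h1 h2
    have : k = W.length := le_antisymm h2 h1
    rw [this, List.take_length]
    exact h
  refine ⟨Nat.find hN, hle, Nat.find_spec hN, fun m hm => Nat.find_min hN hm, ?_⟩
  have hs := Nat.find_spec hN
  have hmin : ∀ m, m < Nat.find hN → ¬ Q W t m := fun m hm => Nat.find_min hN hm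
  generalize Nat.find hN = i at hle hs hmin
  rcases Nat.eq_zero_or_pos i with hi | hi
  · subst hi
    have h1 := hs 0 le_rfl (Nat.zero_le _)
    rw [List.take_zero, List.prod_nil, toWord_one, List.prefix_nil] at h1
    have h2 : t = 1 := toWord_eq_nil_iff.1 h1
    rw [h2, List.take_zero, List.prod_nil, inv_one, mul_one, FreeGroup.norm_one]
    exact Nat.zero_le _
  · obtain ⟨j, rfl⟩ : ∃ j, i = j + 1 := ⟨i - 1, by omega⟩
    have hj : j < W.length := by omega
    have h1 : ¬ t.toWord <+: (W.take j).prod.toWord := by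
      intro h2
      apply hmin j (Nat.lt_succ_self j)
      intro k hk1 hk2
      rcases Nat.eq_or_lt_of_le hk1 with h3 | h3
      · rw [← h3]
        exact h2
      · exact hs k h3 hk2
    have h2 := hs (j + 1) le_rfl hle
    have e : (W.take (j + 1)).prod = (W.take j).prod * W[j] := by
      rw [List.take_succ_eq_append_getElem hj, List.prod_append, List.prod_singleton]
    rw [e] at h2 ⊢
    exact (step _ _ _ h2 h1).trans (hW _ (List.getElem_mem hj))

end PreAux

open PreAux

/-- A path of steps of norm at most `L` from `1` to `W.prod` passes within distance `L` of the two vertices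
`t`, `t'` (in this order) of the geodesic from `1` to `W.prod`. -/
theorem prefix_path (L : ℕ) (W : List (FreeGroup α)) (hW : ∀ x ∈ W, x.norm ≤ L)
    (t t' : FreeGroup α) (h1 : t.toWord <+: t'.toWord) (h2 : t'.toWord <+: W.prod.toWord) :
    ∃ i j : ℕ, i ≤ j ∧ j ≤ W.length ∧ ((W.take i).prod⁻¹ * t).norm ≤ L ∧
      ((W.take j).prod⁻¹ * t').norm ≤ L := by
  obtain ⟨i, _, _, hi3, hi4⟩ := near L W hW t (h1.trans h2)
  obtain ⟨j, hj1, hj2, _, hj4⟩ := near L W hW t' h2
  refine ⟨i, j, ?_, hj1, hi4, hj4⟩
  by_contra h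
  exact hi3 j (by omega) fun k hk1 hk2 => h1.trans (hj2 k hk1 hk2)

end Pool.Agent.Lib.Pee92d8.R
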