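import Pool.Agent.Lib.Pee92d8r.Ab

/-!
# Word maps of finite `p`-groups are surjective if the exponent matrix is invertible mod `p`

PROOF TEXT. (1) CENTRAL TWIST: for `g : Fin k → P`, `z : Fin k → P` with all `z j` central,
`lift (fun j => g j * z j) w = lift g w * ∏ j, z j ^ (ex w j)` (the product is taken in the centre; write it as
`(∏ j, zc j ^ ex w j : Subgroup.center P)` with `zc j` in the centre, a commutative group).  Both sides are
homomorphisms in `w` (use `ex_mul`; the right side is multiplicative because the second factor is central) that agree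
on the generators (`ex_of`).  So `FreeGroup.ext_hom`/ induction.

(2) SURJECTIVITY, strong induction on `Nat.card P`.  If `P` is trivial (`Subsingleton`) take `g = 1`.  Otherwise
`center P` is nontrivial (`IsPGroup.center_nontrivial`), and there is a central `z` of order `p`
(a nontrivial finite `p`-group has an element of order `p`: `exists_prime_orderOf_dvd_card'` applied to the centre,
whose cardinality is divisible by `p`, `IsPGroup.card_eq_or_dvd`/`IsPGroup.iff_card`).  Let `Z = Subgroup.zpowers z`;
it is normal (central) and `P ⧸ Z` is a `p`-group (`IsPGroup.to_quotient`) of smaller cardinality.  By induction there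
is `gbar : Fin k → P ⧸ Z` with `lift gbar (s i) = mk (y i)` for all `i`; lift it to `g : Fin k → P`
(`QuotientGroup.mk_surjective`).  Then `lift g (s i)` and `y i` agree mod `Z`
(`MonoidHom.map` of `lift`: `lift (mk ∘ g) = mk.comp (lift g)`), so `y i = lift g (s i) * z ^ (n i)`, `n i : ℤ`.
Let `A = Matrix.of fun i j => ex (s i) j`.  Since `p` does not divide `det A`, the matrix `A` mod `p` is invertible
over the field `ZMod p`, so there is `c : Fin k → ℤ` with `∑ j, A i j * c j ≡ n i (mod p)` for all `i`
(solve over `ZMod p`, lift the solution).  Then `g' j = g j * z ^ (c j)` satisfies, by (1),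
`lift g' (s i) = lift g (s i) * z ^ (∑ j, c j * A i j) = lift g (s i) * z ^ (n i) = y i`
(`z` has order `p`: `zpow_eq_zpow_iff_modEq`/`orderOf_dvd_iff_zpow_eq_one`).
-/

set_option autoImplicit false

namespace Pool.Agent.Lib.Pee92d8.R

open FreeGroup

namespace WMapAux

theorem ex_one {k : ℕ} : ex (1 : FreeGroup (Fin k)) = 0 := by
  have h := ex_mul (1 : FreeGroup (Fin k)) 1
  rw [mul_one] at h
  exact left_eq_add.1 h

/-- the twisted word map as a homomorphism -/
def tw {k : ℕ} {P : Type} [Group P] (g : Fin k → P) (z : P) (hz : ∀ x, z * x = x * z)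
    (c : Fin k → ℤ) : FreeGroup (Fin k) →* P where
  toFun := fun w => FreeGroup.lift g w * z ^ (∑ j, c j * ex w j)
  map_one' := by
    rw [_root_.map_one, ex_one]
    simp
  map_mul' := by
    intro v w
    have h1 : ∑ j, c j * ex (v * w) j = ∑ j, c j * ex v j + ∑ j, c j * ex w j := by
      rw [← Finset.sum_add_distrib]
      refine Finset.sum_congr rfl fun j _ => ?_
      rw [ex_mul, Pi.add_apply, mul_add]
    have h2 : ∀ (n : ℤ) (x : P), z ^ n * x = x * z ^ n := fun n x =>
      (Commute.zpow_left (hz x) n)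
    rw [h1, zpow_add, _root_.map_mul, mul_assoc, mul_assoc, ← mul_assoc (z ^ _) (FreeGroup.lift g w),
      h2 _ (FreeGroup.lift g w), mul_assoc]

theorem twist {k : ℕ} {P : Type} [Group P] (g : Fin k → P) (z : P) (hz : ∀ x, z * x = x * z)
    (c : Fin k → ℤ) (w : FreeGroup (Fin k)) :
    FreeGroup.lift (fun j => g j * z ^ c j) w = FreeGroup.lift g w * z ^ (∑ j, c j * ex w j) := by
  have h : FreeGroup.lift (fun j => g j * z ^ c j) = tw g z hz c := by
    refine FreeGroup.ext_hom _ _ fun j => ?_
    rw [FreeGroup.lift_apply_of]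
    change _ = FreeGroup.lift g (of j) * z ^ (∑ j', c j' * ex (of j) j')
    rw [FreeGroup.lift_apply_of, ex_of]
    congr 2
    rw [Finset.sum_eq_single j]
    · rw [Pi.single_eq_same, mul_one]
    · intro i _ hi
      rw [Pi.single_eq_of_ne hi, mul_zero]
    · intro h
      exact absurd (Finset.mem_univ j) h
  rw [h]
  rfl

/-- solving a linear system modulo `p` -/
theorem solve (p : ℕ) [Fact p.Prime] {k : ℕ} (A : Matrix (Fin k) (Fin k) ℤ)
    (hdet : ¬ (p : ℤ) ∣ A.det) (n : Fin k → ℤ) :
    ∃ c : Fin k → ℤ, ∀ i, (∑ j, c j * A i j) ≡ n i [ZMOD p] := by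
  set A' : Matrix (Fin k) (Fin k) (ZMod p) := (Int.castRingHom (ZMod p)).mapMatrix A with hA'
  have h1 : A'.det ≠ 0 := by
    rw [hA', ← RingHom.map_det]
    intro h
    exact hdet ((ZMod.intCast_zmod_eq_zero_iff_dvd _ _).1 h)
  have h2 : IsUnit A'.det := isUnit_iff_ne_zero.2 h1
  set c' : Fin k → ZMod p := A'⁻¹.mulVec (fun i => ((n i : ℤ) : ZMod p)) with hc'
  have h3 : A'.mulVec c' = fun i => ((n i : ℤ) : ZMod p) := by
    rw [hc', Matrix.mulVec_mulVec, Matrix.mul_nonsing_inv _ h2, Matrix.one_mulVec]
  choose c hc using fun j => ZMod.intCast_surjective (c' j)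
  refine ⟨c, fun i => ?_⟩
  rw [← ZMod.intCast_eq_intCast_iff, Int.cast_sum]
  have h4 := congrFun h3 i
  rw [Matrix.mulVec, dotProduct] at h4
  rw [← h4]
  refine Finset.sum_congr rfl fun j _ => ?_
  rw [Int.cast_mul, hc, mul_comm]
  rfl

theorem surj_aux (p : ℕ) [Fact p.Prime] {k : ℕ} (s : Fin k → FreeGroup (Fin k))
    (hdet : ¬ (p : ℤ) ∣ (Matrix.of fun i j => ex (s i) j).det) (N : ℕ) :
    ∀ (P : Type) [Group P] [Finite P], IsPGroup p P → Nat.card P = N → ∀ y : Fin k → P,
      ∃ g : Fin k → P, ∀ i, FreeGroup.lift g (s i) = y i := by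
  induction N using Nat.strong_induction_on with
  | _ N ih =>
    intro P _ _ hP hN y
    rcases subsingleton_or_nontrivial P with hs | hs
    · exact ⟨fun _ => 1, fun i => Subsingleton.elim _ _⟩
    · have : Nontrivial (Subgroup.center P) := hP.center_nontrivial
      have hC : IsPGroup p (Subgroup.center P) := hP.to_subgroup _
      obtain ⟨m, hm, hcard⟩ := (IsPGroup.nontrivial_iff_card hC).1 this
      have hdvd : p ∣ Nat.card (Subgroup.center P) := by
        rw [hcard]
        exact dvd_pow_self p hm.ne'
      obtain ⟨z0, hz0⟩ := exists_prime_orderOf_dvd_card' p hdvd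
      set z : P := (z0 : P) with hzdef
      have hzo : orderOf z = p := by rw [hzdef, Subgroup.orderOf_coe, hz0]
      have hz : ∀ x, z * x = x * z := fun x => (Subgroup.mem_center_iff.1 z0.2 x).symm
      set Z : Subgroup P := Subgroup.zpowers z with hZ
      have hn : Z.Normal := by
        refine ⟨fun a ha g => ?_⟩
        obtain ⟨e, rfl⟩ := Subgroup.mem_zpowers_iff.1 ha
        have h2 : z ^ e * g = g * z ^ e := Commute.zpow_left (hz g) e
        rw [← h2, mul_assoc, mul_inv_cancel, mul_one]
        exact Subgroup.zpow_mem_zpowers z e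
      have hlt : Nat.card (P ⧸ Z) < N := by
        have h1 := Subgroup.card_eq_card_quotient_mul_card_subgroup Z
        rw [hN, hZ, Nat.card_zpowers, hzo, ← hZ] at h1
        have h2 : 0 < Nat.card (P ⧸ Z) := Nat.card_pos
        have h3 := (Fact.out : p.Prime).two_le
        rw [h1]
        nlinarith
      obtain ⟨gb, hgb⟩ := ih _ hlt (P ⧸ Z) (hP.to_quotient Z) rfl
        (fun i => QuotientGroup.mk (y i))
      choose g hg using fun j => QuotientGroup.mk_surjective (gb j)
      have h1 : ∀ w, FreeGroup.lift gb w = QuotientGroup.mk' Z (FreeGroup.lift g w) := by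
        intro w
        have h2 : FreeGroup.lift gb = (QuotientGroup.mk' Z).comp (FreeGroup.lift g) := by
          refine FreeGroup.ext_hom _ _ fun j => ?_
          rw [FreeGroup.lift_apply_of, MonoidHom.comp_apply, FreeGroup.lift_apply_of]
          exact (hg j).symm
        rw [h2]
        rfl
      have h2 : ∀ i, ∃ n : ℤ, z ^ n = (FreeGroup.lift g (s i))⁻¹ * y i := by
        intro i
        have h3 : (QuotientGroup.mk (FreeGroup.lift g (s i)) : P ⧸ Z) = QuotientGroup.mk (y i) :=
          (h1 (s i)).symm.trans (hgb i)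
        exact Subgroup.mem_zpowers_iff.1 (QuotientGroup.eq.1 h3)
      choose n hn' using h2
      obtain ⟨c, hc⟩ := solve p _ hdet n
      refine ⟨fun j => g j * z ^ c j, fun i => ?_⟩
      rw [twist g z hz]
      have h4 : z ^ (∑ j, c j * ex (s i) j) = z ^ n i := by
        rw [zpow_eq_zpow_iff_modEq, hzo]
        exact hc i
      rw [h4, hn', mul_inv_cancel_left]

end WMapAux

theorem word_map_surjective (p : ℕ) [Fact p.Prime] {k : ℕ} (s : Fin k → FreeGroup (Fin k))
    (hdet : ¬ (p : ℤ) ∣ (Matrix.of fun i j => ex (s i) j).det)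
    {P : Type} [Group P] [Finite P] (hP : IsPGroup p P) (y : Fin k → P) :
    ∃ g : Fin k → P, ∀ i, FreeGroup.lift g (s i) = y i :=
  WMapAux.surj_aux p s hdet _ P hP rfl y

end Pool.Agent.Lib.Pee92d8.R
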